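import Pool.Agent.H589Z.CS.Cond

/-!
# Axiom A, measurability and pure decision for the iteration
-/

set_option autoImplicit false
set_option linter.unusedSectionVars false

namespace Pool.Agent.H589Z.CS

open Set PiNat MeasureTheory

variable {I Om : Type} [LinearOrder I] [WellFoundedLT I] [Nonempty I] [LC Om] [Countable Om]

/-- sigma ideals -/
structure SId {X : Type} (J : Set X → Prop) : Prop where
  empty : J ∅
  sub : ∀ {Y Y'}, Y ⊆ Y' → J Y' → J Y
  union : ∀ Y : ℕ → Set X, (∀ n, J (Y n)) → J (⋃ n, Y n)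

theorem SId.iUnion {X : Type} {J : Set X → Prop} (h : SId J) {ι : Type} [Countable ι]
    (Y : ι → Set X) (hY : ∀ i, J (Y i)) : J (⋃ i, Y i) := by
  rcases isEmpty_or_nonempty ι with h0 | h0
  · simpa using h.empty
  · obtain ⟨e, he⟩ := exists_surjective_nat ι
    rw [← he.iUnion_comp Y]
    exact h.union _ fun n => hY _

theorem sid_subset {X : Type} (B : Set X) : SId fun Y => Y ⊆ B :=
  ⟨empty_subset _, fun h h' => h.trans h', fun _ h => iUnion_subset h⟩

/-- `q` keeps `n` levels of `p` at the coordinates in `F`. -/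
def KeepOn (F : Finset I) (n : ℕ) (q p : Cond I Om) : Prop :=
  ∀ γ ∈ F, ∀ g ∈ part (Iio γ) q, Tr.Keep n (q.tr γ g) (p.tr γ g)

/-- Axiom A for the finite set `F`. -/
def AF (Om : Type) [LC Om] [Countable Om] (F : Finset I) : Prop :=
  ∀ (p : Cond I Om) (n : ℕ) (J : Set (Z I Om) → Prop), SId J →
    (∀ q ≤ p, ∃ q' ≤ q, J (body q')) → ∃ q ≤ p, KeepOn F n q p ∧ J (body q)

/-- Axiom A for all finite subsets of `a`. -/
def HA (Om : Type) [LC Om] [Countable Om] (a : Set I) : Prop :=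
  ∀ F : Finset I, ↑F ⊆ a → AF Om F

/-- density below `p` in the iteration restricted to `a` -/
def DenseB (a : Set I) (p : Cond I Om) (J : Set (Z I Om) → Prop) : Prop :=
  ∀ q : Cond I Om, part a q ⊆ part a p → ∃ q', part a q' ⊆ part a q ∧ J (part a q')

theorem A_low {a : Set I} (ha : IsLowerSet a) {F : Finset I} (hF : AF Om F) (p : Cond I Om)
    (n : ℕ) {J : Set (Z I Om) → Prop} (hJ : SId J) (hd : DenseB a p J) :
    ∃ q, part a q ⊆ part a p ∧ KeepOn F n q p ∧ J (part a q) := by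
  have hsat : ∀ q : Cond I Om, {g | ∃ g' ∈ body q, Agree a g g'} = part a q := by
    intro q
    ext g
    exact ⟨fun ⟨g', h1, h2⟩ => mem_part_agree ha h2.symm (body_subset a q h1),
      fun hg => exists_ext ha hg⟩
  obtain ⟨q, h1, h2, h3⟩ := hF p n (fun Y => J {g | ∃ g' ∈ Y, Agree a g g'})
    ⟨by simpa using hJ.empty, fun h => hJ.sub fun g ⟨g', h1, h2⟩ => ⟨g', h h1, h2⟩,
      fun Y hY => hJ.sub (fun g ⟨g', h1, h2⟩ => by
        obtain ⟨n, hn⟩ := mem_iUnion.1 h1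
        exact mem_iUnion.2 ⟨n, g', hn, h2⟩) (hJ.union _ hY)⟩
    (fun q hq => by
      obtain ⟨q', h1, h2⟩ := hd q (low_mono ha hq)
      refine ⟨glue a q' q, glue_le h1, ?_⟩
      rw [hsat, part_glue_in _ _ Subset.rfl]
      exact h2)
  rw [hsat] at h3
  exact ⟨q, low_mono ha h1, h2, h3⟩

theorem keep_chain {T : ℕ → Tr Om} {κ n : ℕ} (h : ∀ k, κ ≤ k → Tr.Keep (n + k) (T (k + 1)) (T k))
    {k0 : ℕ} (h0 : κ ≤ k0) {k : ℕ} (hk : k0 ≤ k) : Tr.Keep (n + k0) (T k) (T k0) := by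
  induction hk with
  | refl => exact Tr.Keep.refl _ _
  | @step k hk ih => exact ((h k (h0.trans hk)).mono (by have : k0 ≤ k := hk; omega)).trans ih

theorem part_chain {a : Set I} {p : ℕ → Cond I Om} (hp : ∀ k, part a (p (k + 1)) ⊆ part a (p k))
    {k l : ℕ} (hkl : k ≤ l) : part a (p l) ⊆ part a (p k) := by
  induction hkl with
  | refl => exact Subset.rfl
  | step _ ih => exact (hp _).trans ih

theorem A_omega {a : Set I} (ha : IsLowerSet a) (hA : HA Om a) {F : Finset I} (hF : ↑F ⊆ a)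
    (p : Cond I Om) (n : ℕ) {ι : Type} [Countable ι] {J : ι → Set (Z I Om) → Prop}
    (hJ : ∀ i, SId (J i)) (hd : ∀ i, DenseB a p (J i)) :
    ∃ q, part a q ⊆ part a p ∧ KeepOn F n q p ∧ ∀ i, J i (part a q) := by
  classical
  rcases isEmpty_or_nonempty ι with h0 | h0
  · exact ⟨p, Subset.rfl, fun _ _ _ _ => Tr.Keep.refl _ _, fun i => h0.elim i⟩
  obtain ⟨e, he⟩ := exists_surjective_nat ι
  obtain ⟨P, F', hP0, hR, -, hmono, -, hcov⟩ := exists_bookkeeping (I := I) (Om := Om) id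
    monotone_id (fun _ => le_rfl) (fun n => ⟨n + 1, Nat.lt_succ_self n⟩)
    (fun q => part a q ⊆ part a p)
    (fun j F' p' q' => part a q' ⊆ part a p' ∧ KeepOn (F ∪ F'.filter (· ∈ a)) (n + j) q' p' ∧
      J (e j) (part a q'))
    (fun j F' p' _ hp' => by
      obtain ⟨q, h1, h2, h3⟩ := A_low ha (hA (F ∪ F'.filter (· ∈ a)) (by
        intro γ hγ
        rcases Finset.mem_union.1 hγ with h | h
        · exact hF h
        · exact (Finset.mem_filter.1 h).2)) p' (n + j) (hJ (e j))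
        fun q hq => hd _ q (hq.trans hp')
      exact ⟨q, h1.trans hp', h1, h2, h3⟩) p Subset.rfl
  let κ : I → ℕ := fun β => if β ∈ F then 0 else if h : ∃ j, β ∈ F' j then Nat.find h else 0
  have hκ : ∀ β ∈ a, (∀ k, κ β ≤ k → β ∈ F ∪ (F' k).filter (· ∈ a)) ∨
      ∀ j g, (P j).tr β g = Tr.top := by
    intro β hβ
    by_cases h1 : β ∈ F
    · exact Or.inl fun k _ => Finset.mem_union_left _ h1
    · rcases hcov β with h | h
      · refine Or.inl fun k hk => Finset.mem_union_right _ (Finset.mem_filter.2 ⟨?_, hβ⟩)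
        simp only [κ, h1, if_false, h, dite_true] at hk
        exact hmono hk (Nat.find_spec h)
      · exact Or.inr h
  obtain ⟨q, hq1, hq2⟩ := exists_fusion ha P (fun k => (hR k).1) κ (by
    intro β hβ g hg
    rcases hκ β hβ with h | h
    · have hk : ∀ k, κ β ≤ k → Tr.Keep (n + k) ((P (k + 1)).tr β g) ((P k).tr β g) :=
        fun k hk => (hR k).2.1 β (h k hk) g (hg _)
      refine ⟨fun k hk' => (keep_chain (T := fun k => (P k).tr β g) hk le_rfl hk').1,
        fun t ht => ?_⟩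
      refine LC.mono ?_ (((P (max (κ β) (t.length + 1))).tr β g).pos t)
      intro w hw k hk'
      rcases le_total k (max (κ β) (t.length + 1)) with h1 | h1
      · exact Tr.succ_subset (ht _ (le_max_left _ _))
          (br_subset (part_chain (fun k => (hR k).1) h1) hβ (hg _)) (ht k hk').len hw
      · rw [(keep_chain (T := fun k => (P k).tr β g) hk (le_max_left _ _) h1).2 t
          (by have := le_max_right (κ β) (t.length + 1); omega)]
        exact hw
    · simp only [h]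
      exact ⟨fun _ _ => trivial, fun t _ => LC.mono (fun w _ k _ => mem_univ w) LC.univ⟩)
  refine ⟨q, hP0 ▸ hq1 0, fun γ hγ g hg => ?_, fun i => ?_⟩
  · have hκ0 : κ γ = 0 := by simp [κ, hγ]
    have hg' : ∀ k, g ∈ part (Iio γ) (P k) := fun k =>
      part_mono (isLowerSet_Iio γ) (lower_Iio ha (hF hγ)) (hq1 k) hg
    have hk : ∀ k, 0 ≤ k → Tr.Keep (n + k) ((P (k + 1)).tr γ g) ((P k).tr γ g) :=
      fun k _ => (hR k).2.1 γ (Finset.mem_union_left _ hγ) g (hg' _)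
    obtain ⟨h1, h2⟩ := hq2 γ g
    rw [hκ0] at h1 h2
    subst hP0
    refine ⟨h1, fun t ht => ?_⟩
    have h3 : {w | ∀ k, 0 ≤ k → w ∈ ((P k).tr γ g).succ t} = ((P 0).tr γ g).succ t := by
      ext w
      refine ⟨fun hw => hw 0 le_rfl, fun hw k hk' => ?_⟩
      rw [(keep_chain (T := fun k => (P k).tr γ g) hk le_rfl hk').2 t ht]
      exact hw
    rw [h2 t (h3 ▸ Tr.pos _ t), h3]
  · obtain ⟨j, rfl⟩ := he i
    exact (hJ _).sub (hq1 (j + 1)) (hR j).2.2

/-- The set `B` is decided below every condition. -/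
def Dec (B : Set (Z I Om)) : Prop := ∀ p : Cond I Om, ∃ q ≤ p, body q ⊆ B ∨ body q ⊆ Bᶜ

theorem avoid_low {a : Set I} (ha : IsLowerSet a) (hA : HA Om a) {ι : Type} [Countable ι]
    {B : ι → Set (Z I Om)} (hB : ∀ i, MS a (· ∈ B i)) (hD : ∀ i, Dec (B i)) (p : Cond I Om) :
    (∃ q i, part a q ⊆ part a p ∧ part a q ⊆ B i) ∨
      ∃ q, part a q ⊆ part a p ∧ ∀ i, part a q ⊆ (B i)ᶜ := by
  by_cases h : ∃ q i, part a q ⊆ part a p ∧ part a q ⊆ B i
  · exact Or.inl h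
  right
  obtain ⟨q, h1, -, h2⟩ := A_omega ha hA (F := ∅) (by simp) p 0 (fun i => sid_subset (B i)ᶜ)
    (fun i q hq => by
      obtain ⟨q', h1, h2 | h2⟩ := hD i q
      · exact absurd ⟨q', i, (low_mono ha h1).trans hq, low_of_body ha (hB i) h2⟩ h
      · exact ⟨q', low_mono ha h1, low_of_body ha (hB i).not h2⟩)
  exact ⟨q, h1, h2⟩

theorem cover_low {a : Set I} (ha : IsLowerSet a) (hA : HA Om a) {ι : Type} [Countable ι]
    {B : ι → Set (Z I Om)} (hB : ∀ i, MS a (· ∈ B i)) (hD : ∀ i, Dec (B i)) (p : Cond I Om)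
    (h : part a p ⊆ ⋃ i, B i) : ∃ q i, part a q ⊆ part a p ∧ part a q ⊆ B i := by
  rcases avoid_low ha hA hB hD p with h1 | ⟨q, h1, h2⟩
  · exact h1
  · obtain ⟨g, hg⟩ := part_nonempty a q
    obtain ⟨i, hi⟩ := mem_iUnion.1 (h (h1 hg))
    exact absurd hi (h2 i hg)

theorem exists_node_aux {β : I} (hA : HA Om (Iio β))
    (hD : ∀ B : Set (Z I Om), MS (Iio β) (· ∈ B) → Dec B) (p : Cond I Om) (n : ℕ) :
    ∃ q ≤ p, ∃ t : List Om, n ≤ t.length ∧ (∀ g, q.tr β g = (p.tr β g).cone t) ∧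
      ∀ g ∈ part (Iio β) q, (p.tr β g).Node t := by
  have hm : ∀ t : List Om, MS (Iio β) (· ∈ {g | n ≤ t.length ∧ (p.tr β g).Node t}) :=
    fun t => (MS.const _).and ((p.meas β).node t)
  obtain ⟨r, t, h1, h2⟩ := cover_low (isLowerSet_Iio β) hA hm (fun t => hD _ (hm t)) p
    (fun g _ => by
      obtain ⟨t, h1, h2⟩ := (p.tr β g).exists_long_node n
      exact mem_iUnion.2 ⟨t, h2, h1⟩)
  obtain ⟨q, -, h3, -, h4, h5⟩ := exists_three β r p ((p.meas β).cone t)
  obtain ⟨g0, hg0⟩ := part_nonempty (Iio β) r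
  refine ⟨q, fun g hg => ?_, t, (h2 hg0).1, fun g => by rw [h3], fun g hg => (h2 (h4 ▸ hg)).2⟩
  obtain ⟨h6, h7, h8⟩ := (h5 g).1 hg
  exact (mem_body_three β).2 ⟨h1 h6, Tr.mem_br_of_cone (h2 h6).2 h7, h8⟩

theorem dec_of_lower {a : Set I} (ha : IsLowerSet a) (hA : HA Om a)
    (hD : ∀ β ∈ a, ∀ B : Set (Z I Om), MS (Iio β) (· ∈ B) → Dec B) {B : Set (Z I Om)}
    (hB : MS a (· ∈ B)) : Dec B := by
  refine hB.induction (P := Dec) ?_ (fun p => ⟨p, le_rfl, Or.inr (by simp)⟩) ?_ ?_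
  · intro β hβ n w p
    obtain ⟨q, h1, t, h2, h3, -⟩ := exists_node_aux
      (fun F hF => hA F (hF.trans (lower_Iio ha hβ))) (hD β hβ) p (n + 1)
    obtain ⟨g0, hg0⟩ := body_nonempty q
    have h4 : ∀ g ∈ body q, g β n = g0 β n := by
      intro g hg
      have h5 := (hg β trivial).1
      have h6 := (hg0 β trivial).1
      rw [h3] at h5 h6
      exact res_eq_res.1 (h5.trans h6.symm) h2
    refine ⟨q, h1, ?_⟩
    by_cases h : g0 β n = w
    · exact Or.inl fun g hg => (h4 g hg).trans h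
    · exact Or.inr fun g hg h' => h ((h4 g hg).symm.trans h')
  · intro t _ ht p
    obtain ⟨q, h1, h2⟩ := ht p
    exact ⟨q, h1, by rw [compl_compl]; exact h2.symm⟩
  · intro t ht hd p
    rcases avoid_low ha hA ht hd p with ⟨q, i, h1, h2⟩ | ⟨q, h1, h2⟩
    · exact ⟨glue a q p, glue_le h1, Or.inl fun g hg =>
        mem_iUnion.2 ⟨i, h2 (mem_body_glue.1 hg).1⟩⟩
    · refine ⟨glue a q p, glue_le h1, Or.inr fun g hg => ?_⟩
      rw [compl_iUnion, mem_iInter]
      exact fun i => h2 i (mem_body_glue.1 hg).1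

theorem dec_Iio (β : I) : HA Om (Iio β) → ∀ B : Set (Z I Om), MS (Iio β) (· ∈ B) → Dec B := by
  induction β using WellFoundedLT.induction with
  | ind β ih =>
    intro hA B hB
    exact dec_of_lower (isLowerSet_Iio β) hA (fun γ hγ => ih γ hγ fun F hF =>
      hA F (hF.trans (Iio_subset_Iio (le_of_lt hγ)))) hB

section PD

variable {V : Type} [Countable V] [Nonempty V]

/-- On `G` there is a pure extension of the cone above `t` on which a value is decided. -/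
def Good (β : I) (p : Cond I Om) (W : Finset V) (J : V → Set (Z I Om) → Prop) (t : List Om)
    (G : Set (Z I Om)) : Prop :=
  ∃ (q : Cond I Om) (v : Z I Om → V), MF (Iio β) v ∧ (∀ g ∈ G, (q.tr β g).stem = t ∧ v g ∈ W) ∧
    (∀ g ∈ G, g ∈ part (Ici β) q → g ∈ part (Ici β) p) ∧
    ∀ c, J c {g | g ∈ G ∧ v g = c ∧ g ∈ part (Ici β) q}

variable {β : I} {p : Cond I Om} {W : Finset V} {J : V → Set (Z I Om) → Prop}

theorem Good.mono (hJ : ∀ c, SId (J c)) {t : List Om} {G G' : Set (Z I Om)}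
    (h : Good β p W J t G) (h' : G' ⊆ G) : Good β p W J t G' := by
  obtain ⟨q, v, h1, h2, h3, h4⟩ := h
  exact ⟨q, v, h1, fun g hg => h2 g (h' hg), fun g hg => h3 g (h' hg),
    fun c => (hJ c).sub (fun g hg => by exact ⟨h' hg.1, hg.2⟩) (h4 c)⟩

theorem good_empty (hJ : ∀ c, SId (J c)) (t : List Om) : Good β p W J t ∅ :=
  ⟨p, fun _ => Classical.arbitrary V, MF.const _, by simp, by simp,
    fun c => by simpa using (hJ c).empty⟩

theorem good_iUnion (hJ : ∀ c, SId (J c)) {t : List Om} {G : ℕ → Set (Z I Om)}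
    (hG : ∀ n, MS (Iio β) (· ∈ G n)) (h : ∀ n, Good β p W J t (G n)) :
    Good β p W J t (⋃ n, G n) := by
  choose q v h1 h2 h3 h4 using h
  obtain ⟨ι, hι, hι'⟩ := exists_sel (φ := fun n g => g ∈ G n) hG
  obtain ⟨s, -, hs⟩ := exists_pw (isLowerSet_Iio β) hι p q
  have hs' : ∀ g, g ∈ part (Ici β) s → g ∈ part (Ici β) (q (ι g)) := fun g hg γ hγ => by
    rw [← hs γ (by simpa using hγ)]
    exact hg γ hγ
  refine ⟨s, fun g => v (ι g) g, hι.comp h1, fun g hg => ?_, fun g hg h => ?_, fun c => ?_⟩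
  · rw [hs β (by simp)]
    exact h2 _ g (hι' g (mem_iUnion.1 hg))
  · exact h3 _ g (hι' g (mem_iUnion.1 hg)) (hs' g h)
  · refine (hJ c).sub (fun g hg => ?_) ((hJ c).union _ fun n => h4 n c)
    exact mem_iUnion.2 ⟨ι g, hι' g (mem_iUnion.1 hg.1), hg.2.1, hs' g hg.2.2⟩

theorem good_amalg (hJ : ∀ c, SId (J c)) {t : List Om} {G : Om → Set (Z I Om)}
    (hG : ∀ w, MS (Iio β) (· ∈ G w)) (h : ∀ w, Good β p W J (w :: t) (G w)) :
    Good β p W J t {g | Pos {w | w ∈ (p.tr β g).succ t ∧ g ∈ G w}} := by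
  choose q v h1 h2 h3 h4 using h
  obtain ⟨v', hv, hv'⟩ := exists_sel (a := Iio β)
    (φ := fun c g => c ∈ W ∧ Pos {w | w ∈ (p.tr β g).succ t ∧ w ∈ {w | g ∈ G w ∧ v w g = c}})
    fun c => (MS.const _).and (MS.pos fun w => ((p.meas β).2 t w).and ((hG w).and (h1 w c)))
  have hv'' : ∀ g, Pos {w | w ∈ (p.tr β g).succ t ∧ g ∈ G w} →
      v' g ∈ W ∧ Pos {w | w ∈ (p.tr β g).succ t ∧ w ∈ {w | g ∈ G w ∧ v w g = v' g}} := by
    intro g hg
    apply hv' g
    obtain ⟨c, hc, h5⟩ := pos_colour W (fun w => v w g) hg fun w hw => (h2 w g hw.2).2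
    exact ⟨c, hc, LC.mono (fun w hw => ⟨hw.1.1, hw.1.2, hw.2⟩) h5⟩
  obtain ⟨s, -, hs1, -, -, hs2⟩ := exists_amalgam β p p
    (T := fun g => (p.tr β g).shrink t fun _ => {w | g ∈ G w ∧ v w g = v' g})
    ((p.meas β).shrink (MF.const t) fun _ w => (hG w).and
      (MS.comp hv (φ := fun c g => v w g = c) (h1 w)))
    (X := fun _ u => u.length = t.length + 1) (fun _ => MS.const _)
    (fun _ u u' h5 h6 h7 => h5.eq_of_length (h6.trans h7.symm))
    (fun u => u.casesOn p fun w _ => q w)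
  have key : ∀ g, Pos {w | w ∈ (p.tr β g).succ t ∧ g ∈ G w} → g ∈ part (Ici β) s →
      ∃ w, g ∈ G w ∧ v w g = v' g ∧ g ∈ part (Ici β) (q w) := by
    intro g hg hg'
    obtain ⟨h5, h6⟩ := hs2 g hg' (t.length + 1) (by simp) (Nat.le_succ _)
    have h7 : res (g β) t.length = t := h5.res_stem
    have h8 := h5.succ_mem (n := t.length) le_rfl (Nat.lt_succ_self _)
    rw [h7] at h8
    have h9 := Tr.mem_of_shrink h8 (hv'' g hg).2
    refine ⟨_, h9.1, h9.2, h6 ?_⟩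
    rw [res_succ, h7]
    exact (h2 _ g h9.1).1
  refine ⟨s, v', hv, fun g hg => ⟨hs1 g, (hv'' g hg).1⟩, fun g hg hg' => ?_, fun c => ?_⟩
  · obtain ⟨w, h5, -, h6⟩ := key g hg hg'
    exact h3 w g h5 h6
  · refine (hJ c).sub (fun g hg => ?_) ((hJ c).iUnion _ fun w => h4 w c)
    obtain ⟨w, h5, h6, h7⟩ := key g hg.1 hg.2.2
    exact mem_iUnion.2 ⟨w, h5, h6.trans hg.2.1, h7⟩

/-- The ideal of the sets on which the node `t` is good. -/
def GId (β : I) (p : Cond I Om) (W : Finset V) (J : V → Set (Z I Om) → Prop) (t : List Om)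
    (Y : Set (Z I Om)) : Prop :=
  ∃ G, MS (Iio β) (· ∈ G) ∧ Y ⊆ G ∧ Good β p W J t {g | g ∈ G ∧ (p.tr β g).Node t}

theorem sid_GId (hJ : ∀ c, SId (J c)) (t : List Om) : SId (GId β p W J t) := by
  refine ⟨⟨∅, MS.const False, Subset.rfl, by simpa using good_empty hJ t⟩,
    fun h ⟨G, h1, h2, h3⟩ => ⟨G, h1, h.trans h2, h3⟩, fun Y hY => ?_⟩
  choose G h1 h2 h3 using hY
  refine ⟨⋃ n, G n, (MS.ex h1).congr fun g => by simp, iUnion_mono h2, ?_⟩
  refine (good_iUnion hJ (fun n => (h1 n).and ((p.meas β).node t)) h3).mono hJ ?_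
  rintro g ⟨hg, hg'⟩
  obtain ⟨n, hn⟩ := mem_iUnion.1 hg
  exact mem_iUnion.2 ⟨n, hn, hg'⟩

theorem dense_GId (hA : HA Om (Iio β)) (hJ : ∀ c, SId (J c))
    (hd : ∀ q ≤ p, ∃ q' ≤ q, ∃ c ∈ W, J c (body q')) (t : List Om) :
    DenseB (Iio β) p (GId β p W J t) := by
  intro r hr
  have hD := dec_Iio β hA
  have hl := isLowerSet_Iio β
  obtain ⟨r0, hr0, -, h0⟩ := A_omega hl hA (F := ∅) (by simp) r 0
    (J := fun t' Y => ∃ G H, MS (Iio β) (· ∈ G) ∧ MS (Iio β) (· ∈ H) ∧ Good β p W J t' G ∧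
      (∀ r' : Cond I Om, part (Iio β) r' ⊆ H → ¬ Good β p W J t' (part (Iio β) r')) ∧
      Y ⊆ G ∪ H)
    (fun t' => by
      refine ⟨⟨∅, ∅, MS.const False, MS.const False, good_empty hJ _, fun r' h _ => ?_, by simp⟩,
        fun h ⟨G, H, h1, h2, h3, h4, h5⟩ => ⟨G, H, h1, h2, h3, h4, h.trans h5⟩, fun Y hY => ?_⟩
      · obtain ⟨g, hg⟩ := part_nonempty (Iio β) r'
        exact h hg
      · choose G H h1 h2 h3 h4 h5 using hY
        refine ⟨⋃ n, G n, ⋃ n, H n, (MS.ex h1).congr fun g => by simp,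
          (MS.ex h2).congr fun g => by simp, good_iUnion hJ h1 h3, fun r' h6 h7 => ?_, ?_⟩
        · obtain ⟨r'', n, h8, h9⟩ := cover_low hl hA h2 (fun n => hD _ (h2 n)) r' h6
          exact h4 n r'' h9 (h7.mono hJ h8)
        · rw [← iUnion_union_distrib]
          exact iUnion_mono h5)
    (fun t' q _ => by
      by_cases h : ∃ r' : Cond I Om, part (Iio β) r' ⊆ part (Iio β) q ∧
        Good β p W J t' (part (Iio β) r')
      · obtain ⟨r', h1, h2⟩ := h
        refine ⟨r', h1, _, ∅, ms_low hl r', MS.const False, h2, fun r'' h _ => ?_, by simp⟩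
        obtain ⟨g, hg⟩ := part_nonempty (Iio β) r''
        exact h hg
      · exact ⟨q, Subset.rfl, ∅, _, MS.const False, ms_low hl q, good_empty hJ _,
          fun r' h1 h2 => h ⟨r', h1, h2⟩, by simp⟩)
  choose G H hG hH hG' hH' hGH using h0
  let C : Bool ⊕ List Om → Set (Z I Om) := fun i => match i with
    | Sum.inl true => G t
    | Sum.inl false => {g | ¬ (p.tr β g).Node t}
    | Sum.inr t' => {g | g ∉ G t' ∧ Pos {w | w ∈ (p.tr β g).succ t' ∧ g ∈ G (w :: t')}}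
  have hC : ∀ i, MS (Iio β) (· ∈ C i) := fun i => match i with
    | Sum.inl true => hG t
    | Sum.inl false => ((p.meas β).node t).not
    | Sum.inr t' => (hG t').not.and (MS.pos fun w => ((p.meas β).2 t' w).and (hG _))
  rcases avoid_low hl hA hC (fun i => hD _ (hC i)) r0 with ⟨r', i, h1, h2⟩ | ⟨r', h1, h2⟩
  · refine ⟨r', h1.trans hr0, ?_⟩
    match i with
    | Sum.inl true => exact ⟨G t, hG t, h2, (hG' t).mono hJ fun g hg => hg.1⟩
    | Sum.inl false =>
      exact ⟨_, hC (Sum.inl false), h2, (good_empty hJ t).mono hJ fun g hg => hg.1 hg.2⟩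
    | Sum.inr t' =>
      refine absurd ((good_amalg hJ (fun w => hG (w :: t')) fun w => hG' _).mono hJ
        fun g hg => (h2 hg).2) (hH' t' r' fun g hg => ?_)
      exact (hGH t' (h1 hg)).resolve_left (h2 hg).1
  · exfalso
    obtain ⟨p2, -, h3, -, h4, h5⟩ := exists_three β r' p
      (T := fun g => (p.tr β g).shrink t fun t' => {w | g ∉ G (w :: t')})
      ((p.meas β).shrink (MF.const t) fun t' w => (hG _).not)
    have hp2 : p2 ≤ p := by
      intro g hg
      obtain ⟨h6, h7, h8⟩ := (h5 g).1 hg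
      exact (mem_body_three β).2 ⟨hr (hr0 (h1 h6)),
        Tr.shrink_br (not_not.1 (h2 (Sum.inl false) h6)) _ h7, h8⟩
    obtain ⟨q, hq, c, hc, hJc⟩ := hd p2 hp2
    obtain ⟨q2, hq2, t', h6, h7, h8⟩ := exists_node_aux hA hD q t.length
    refine hH' t' q2 (fun g hg => ?_) ⟨q2, fun _ => c, MF.const c,
      fun g _ => ⟨by rw [h7]; rfl, hc⟩, fun g hg hg' => body_subset _ p
        (hp2 (hq (hq2 ((mem_body_Iio β).2 ⟨hg, hg'⟩)))), fun c' => ?_⟩
    · have hgq := low_mono hl hq2 hg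
      have hgr : g ∈ part (Iio β) r' := h4 ▸ low_mono hl hq hgq
      refine (hGH t' (h1 hgr)).resolve_left ?_
      obtain ⟨x, hx, hx'⟩ := (h8 g hg).exists_br
      have hx2 := br_subset hq (mem_univ β) hgq hx
      rw [h3] at hx2
      have key : ∀ m, t.length ≤ m → g ∉ G (res x m) := by
        intro m hm
        induction hm with
        | refl =>
          have : res x t.length = t := hx2.1
          rw [this]
          exact h2 (Sum.inl true) hgr
        | @step m hm ih =>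
          have h9 : ¬ Pos {w | w ∈ (p.tr β g).succ (res x m) ∧ g ∈ G (w :: res x m)} :=
            fun h => h2 (Sum.inr (res x m)) hgr ⟨ih, h⟩
          exact Tr.mem_of_shrink (hx2.2 m hm)
            (pos_diff (B := {w | g ∈ G (w :: res x m)}) ((p.tr β g).pos _) h9)
      rw [← hx']
      exact key _ h6
    · by_cases h : c = c'
      · subst h
        exact (hJ c).sub (fun g hg => hq2 ((mem_body_Iio β).2 ⟨hg.1, hg.2.2⟩)) hJc
      · exact (hJ c').sub (fun g hg => h hg.2.1) (hJ c').empty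

end PD

theorem KeepOn.of_eq {F : Finset I} {β : I} (hF : ↑F ⊆ Iio β) {n : ℕ} {s r p : Cond I Om}
    (h : ∀ γ < β, s.tr γ = r.tr γ) (hk : KeepOn F n r p) : KeepOn F n s p := by
  intro γ hγ g hg
  have h1 : γ < β := hF hγ
  rw [h γ h1]
  exact hk γ hγ g (part_congr (fun δ hδ => h δ (lt_trans hδ h1)) ▸ hg)

theorem AF_step {β : I} (hA : HA Om (Iio β)) {F : Finset I} (hF : ↑F ⊆ Iio β) :
    AF Om (insert β F) := by
  intro p n J hJ hd
  obtain ⟨r, hr, hk, h⟩ := A_omega (isLowerSet_Iio β) hA hF p n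
    (J := GId β p ({()} : Finset Unit) fun _ => J) (sid_GId fun _ => hJ)
    (dense_GId hA (fun _ => hJ) fun q hq => by
      obtain ⟨q', h1, h2⟩ := hd q hq
      exact ⟨q', h1, (), by simp, h2⟩)
  choose G hG hG' q v h1 h2 h3 h4 using h
  obtain ⟨s, hs0, hs1, hs2, -, hs3⟩ := exists_amalgam β r p (p.meas β)
    (X := fun g u => u.length = (p.tr β g).stem.length + n)
    (fun u => (p.meas β).1.pred fun s => u.length = s.length + n)
    (fun _ u u' h5 h6 h7 => h5.eq_of_length (h6.trans h7.symm)) q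
  have hlow : part (Iio β) s = part (Iio β) r := part_congr hs0
  have key : ∀ g ∈ body s, ∃ u, (g ∈ G u ∧ (p.tr β g).Node u) ∧ g ∈ part (Ici β) (q u) := by
    intro g hg
    obtain ⟨h5, h6⟩ := (mem_body_Iio β).1 hg
    obtain ⟨h7, h8⟩ := hs3 g h6 _ (res_length _ _) (Nat.le_add_right _ _)
    have h9 := fun u => hG' u (hlow ▸ h5 : g ∈ part (Iio β) r)
    exact ⟨_, ⟨h9 _, h7⟩, h8 (h2 _ g ⟨h9 _, h7⟩).1⟩
  refine ⟨s, fun g hg => ?_, fun γ hγ => ?_, ?_⟩
  · obtain ⟨u, h5, h6⟩ := key g hg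
    exact (mem_body_Iio β).2 ⟨hr (hlow ▸ body_subset _ s hg), h3 u g h5 h6⟩
  · rcases Finset.mem_insert.1 hγ with rfl | hγ
    · refine fun g _ => ⟨hs1 g, fun t ht => hs2 g t fun u hu h5 => ?_⟩
      have := hu.length_le
      omega
    · exact KeepOn.of_eq hF hs0 hk γ hγ
  · refine hJ.sub (fun g hg => ?_) (hJ.iUnion _ fun u => h4 u ())
    obtain ⟨u, h5, h6⟩ := key g hg
    exact mem_iUnion.2 ⟨u, h5, rfl, h6⟩

theorem AF_of {F : Finset I} (h : ∀ β ∈ F, HA Om (Iio β)) : AF Om F := by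
  rcases F.eq_empty_or_nonempty with rfl | hF
  · intro p n J _ hd
    obtain ⟨q, h1, h2⟩ := hd p le_rfl
    exact ⟨q, h1, fun γ hγ => by simp at hγ, h2⟩
  · rw [← Finset.insert_erase (F.max'_mem hF)]
    refine AF_step (h _ (F.max'_mem hF)) fun γ hγ => ?_
    have h1 := Finset.mem_erase.1 (Finset.mem_coe.1 hγ)
    exact lt_of_le_of_ne (F.le_max' γ h1.2) h1.1

theorem HA_Iio (β : I) : HA Om (Iio β) := by
  induction β using WellFoundedLT.induction with
  | ind β ih => exact fun F hF => AF_of fun γ hγ => ih γ (hF hγ)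

theorem HA_all (a : Set I) : HA Om a := fun _ _ => AF_of fun γ _ => HA_Iio γ

theorem dec_all {B : Set (Z I Om)} {a : Set I} (hB : MS a (· ∈ B)) : Dec B :=
  dec_of_lower isLowerSet_univ (HA_all _) (fun β _ => dec_Iio β (HA_all _))
    (hB.mono (subset_univ a))

theorem avoid {ι : Type} [Countable ι] {B : ι → Z I Om → Prop} (hB : ∀ i, MS univ (B i))
    (p : Cond I Om) : (∃ q ≤ p, ∃ i, ∀ g ∈ body q, B i g) ∨ ∃ q ≤ p, ∀ i, ∀ g ∈ body q, ¬ B i g := by
  rcases avoid_low isLowerSet_univ (HA_all _) (B := fun i => {g | B i g}) hB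
    (fun i => dec_all (hB i)) p with ⟨q, i, h1, h2⟩ | ⟨q, h1, h2⟩
  · exact Or.inl ⟨q, h1, i, h2⟩
  · exact Or.inr ⟨q, h1, h2⟩

theorem cover {ι : Type} [Countable ι] {B : ι → Z I Om → Prop} (hB : ∀ i, MS univ (B i))
    (p : Cond I Om) (h : ∀ g ∈ body p, ∃ i, B i g) : ∃ q ≤ p, ∃ i, ∀ g ∈ body q, B i g := by
  rcases avoid hB p with h1 | ⟨q, h1, h2⟩
  · exact h1
  · obtain ⟨g, hg⟩ := body_nonempty q
    obtain ⟨i, hi⟩ := h g (h1 hg)
    exact absurd hi (h2 i g hg)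

theorem decide_fun {V : Type} [Countable V] {f : Z I Om → V} (hf : MF univ f) (p : Cond I Om) :
    ∃ q ≤ p, ∃ v, ∀ g ∈ body q, f g = v := cover hf p fun _ _ => ⟨_, rfl⟩

theorem exists_node (β : I) (p : Cond I Om) (n : ℕ) :
    ∃ q ≤ p, ∃ t : List Om, n ≤ t.length ∧ (∀ g, q.tr β g = (p.tr β g).cone t) ∧
      ∀ g ∈ part (Iio β) q, (p.tr β g).Node t :=
  exists_node_aux (HA_all _) (fun _ h => dec_all h) p n

/-- Pure decision at the coordinate `β`, above all nodes at once. -/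
theorem pure_decision {V Θ : Type} [Countable V] [Nonempty V] [Countable Θ] (β : I)
    (p : Cond I Om) {F : Finset I} (hF : ↑F ⊆ Iio β) (n : ℕ) {a : Z I Om → V} (ha : MF univ a)
    (W : Θ → Finset V) (hW : ∀ θ, (W θ).Nonempty) {ϑ : List Om → Z I Om → Θ}
    (hϑ : ∀ t, MF (Iio β) (ϑ t)) :
    ∃ (r : Cond I Om) (q : List Om → Cond I Om) (v : List Om → Z I Om → V),
      part (Iio β) r ⊆ part (Iio β) p ∧ KeepOn F n r p ∧ (∀ t, MF (Iio β) (v t)) ∧
      ∀ t, ∀ g ∈ part (Iio β) r, (p.tr β g).Node t →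
        ((q t).tr β g).stem = t ∧ v t g ∈ W (ϑ t g) ∧
        (g ∈ part (Ici β) (q t) → g ∈ part (Ici β) p ∧ (a g ∈ W (ϑ t g) → a g = v t g)) := by
  obtain ⟨r, hr, hk, h⟩ := A_omega (isLowerSet_Iio β) (HA_all _) hF p n
    (J := fun x : Θ × List Om => GId β p (W x.1) (fun c Y => Y ⊆ {g | a g ∈ W x.1 → a g = c}) x.2)
    (fun x => sid_GId (fun _ => sid_subset _) _)
    (fun x => dense_GId (HA_all _) (fun _ => sid_subset _) (fun q _ => by
      obtain ⟨q', h1, c, h2⟩ := decide_fun ha q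
      by_cases hc : c ∈ W x.1
      · exact ⟨q', h1, c, hc, fun g hg _ => h2 g hg⟩
      · obtain ⟨c', hc'⟩ := hW x.1
        exact ⟨q', h1, c', hc', fun g hg h => absurd (h2 g hg ▸ h) hc⟩) _)
  choose G hG hG' q v h1 h2 h3 h4 using h
  choose s _ hs using fun t => exists_pw (isLowerSet_Iio β) (hϑ t) p fun θ => q (θ, t)
  refine ⟨r, s, fun t g => v (ϑ t g, t) g, hr, hk,
    fun t => (hϑ t).comp (φ := fun θ g => v (θ, t) g) fun θ => h1 _, fun t g hg hn => ?_⟩
  have h5 := h2 (ϑ t g, t) g ⟨hG' _ hg, hn⟩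
  refine ⟨by rw [hs t β (by simp)]; exact h5.1, h5.2, fun hg' => ?_⟩
  have h6 : g ∈ part (Ici β) (q (ϑ t g, t)) := fun γ hγ => by
    rw [← hs t γ (by simpa using hγ)]
    exact hg' γ hγ
  exact ⟨h3 _ g ⟨hG' _ hg, hn⟩ h6, h4 (ϑ t g, t) _ ⟨⟨hG' _ hg, hn⟩, rfl, h6⟩⟩

/-- Reading countably many values below a condition by measurable functions. -/
theorem exists_reading {T V : Type} [Countable T] [Countable V] [Nonempty V] (p : Cond I Om)
    (φ : T → V → Set (Cond I Om)) (hd : ∀ τ, ∀ r ≤ p, ∃ r' ≤ r, ∃ y, r' ∈ φ τ y) :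
    ∃ q ≤ p, ∃ f : T → Z I Om → V, (∀ τ, MF univ (f τ)) ∧
      ∀ τ, ∀ r ≤ q, ∃ r' ≤ r, ∃ y, (∀ g ∈ body r', f τ g = y) ∧ ∃ s ∈ φ τ y, r' ≤ s := by
  obtain ⟨q, hq, -, h⟩ := A_omega isLowerSet_univ (HA_all _) (F := ∅) (by simp) p 0
    (J := fun τ Y => ∃ S : Set (Cond I Om × V), S.Countable ∧ (∀ x ∈ S, x.1 ∈ φ τ x.2) ∧
      Y ⊆ ⋃ x ∈ S, body x.1)
    (fun τ => ⟨⟨∅, countable_empty, by simp, by simp⟩,
      fun h ⟨S, h1, h2, h3⟩ => ⟨S, h1, h2, h.trans h3⟩, fun Y hY => by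
        choose S h1 h2 h3 using hY
        refine ⟨⋃ n, S n, countable_iUnion h1, fun x hx => ?_, iUnion_subset fun n =>
          (h3 n).trans (biUnion_subset_biUnion_left (subset_iUnion S n))⟩
        obtain ⟨n, hn⟩ := mem_iUnion.1 hx
        exact h2 n x hn⟩)
    (fun τ r hr => by
      obtain ⟨r', h1, y, h2⟩ := hd τ r hr
      exact ⟨r', h1, {(r', y)}, countable_singleton _, by simpa using h2, by simp⟩)
  choose S h1 h2 h3 using h
  have hne : ∀ τ, (S τ).Nonempty := by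
    intro τ
    obtain ⟨g, hg⟩ := body_nonempty q
    obtain ⟨x, hx, -⟩ := mem_iUnion₂.1 (h3 τ hg)
    exact ⟨x, hx⟩
  choose e he using fun τ => (h1 τ).exists_eq_range (hne τ)
  choose ι hι hι' using fun τ => exists_sel (a := univ) (φ := fun n g => g ∈ body (e τ n).1)
    fun n => ms_body _
  refine ⟨q, hq, fun τ g => (e τ (ι τ g)).2, fun τ => (hι τ).map fun n => (e τ n).2,
    fun τ r hr => ?_⟩
  obtain ⟨r', h4, n, h5⟩ := decide_fun (hι τ) r
  refine ⟨r', h4, (e τ n).2, fun g hg => by simp only [h5 g hg], (e τ n).1,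
    h2 τ _ (he τ ▸ mem_range_self n), fun g hg => ?_⟩
  rw [← h5 g hg]
  apply hι' τ g
  obtain ⟨x, hx, h6⟩ := mem_iUnion₂.1 (h3 τ (hr (h4 hg)))
  rw [he τ] at hx
  obtain ⟨m, rfl⟩ := hx
  exact ⟨m, h6⟩

end Pool.Agent.H589Z.CS
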