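import Pool.Agent.H589Z.CS.Step

/-!
# Capturing a sequence of strings, and avoiding it with a real outside a countable set
-/

set_option autoImplicit false
set_option linter.unusedSectionVars false

namespace Pool.Agent.H589Z.CS

open Set PiNat MeasureTheory

variable {I : Type} [LinearOrder I] [WellFoundedLT I] [Nonempty I]

open Classical in
/-- the trace of a set of numbers below `n` -/
noncomputable def trc (x : ℕ → Prop) (n : ℕ) : Finset ℕ := (Finset.range n).filter x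

theorem mem_trc {x : ℕ → Prop} {n i : ℕ} : i ∈ trc x n ↔ i < n ∧ x i := by simp [trc]

theorem mf_trc {a : Set I} {x : ℕ → Z I O → Prop} (hx : ∀ i, MS a (x i)) (n : ℕ) :
    MF a fun g => trc (fun i => x i g) n :=
  MF.finset fun z => ((MS.const (z < n)).and (hx z)).congr fun _ => by rw [mem_trc]

theorem keepAbs_chain {T : ℕ → Tr O} {κ : ℕ} (h : ∀ k, κ ≤ k → KeepAbs (k + 1) (T (k + 1)) (T k))
    {k0 : ℕ} (h0 : κ ≤ k0) {k : ℕ} (hk : k0 ≤ k) : KeepAbs (k0 + 1) (T k) (T k0) := by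
  induction hk with
  | refl => exact ⟨rfl, fun _ _ => rfl⟩
  | @step k hk ih => exact ((h k (h0.trans hk)).mono (by have : k0 ≤ k := hk; omega)).trans ih

theorem stem_chain {T : ℕ → Tr O} {κ : ℕ} (h : ∀ k, κ ≤ k → (T (k + 1)).stem = (T k).stem)
    {k : ℕ} (hk : κ ≤ k) : (T k).stem = (T κ).stem := by
  induction hk with
  | refl => rfl
  | @step k hk ih => exact (h k hk).trans ih

theorem capture (α : I) (p0 : Cond I O) {s : ℕ → ℕ → Z I O → Prop} (hs : ∀ k i, MS univ (s k i)) :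
    ∃ q ≤ p0, ∃ (t0 : List O) (h : List O → Z I O → Finset (Finset ℕ)) (c : List O → ℕ),
      (∀ g, (q.tr α g).stem = t0) ∧ (∀ u, MF (Iio α) (h u)) ∧
      (∀ w t g, (h (w :: t) g).card ≤ c t) ∧
      ∀ g ∈ body q, ∀ k, t0.length ≤ k → ∃ j, k * k ≤ j ∧ j < (k + 1) * (k + 1) ∧
        trc (fun i => s k i g) (nn (res (g α) (j + 1))) ∈ h (res (g α) (j + 1)) g := by
  classical
  obtain ⟨p1, hp1, t0, -, ht0, -⟩ := exists_node α p0 0
  let d : ℕ → ℕ := fun j => j.sqrt.sqrt
  let σ : ℕ → Z I O → Finset ℕ := fun j g => trc (fun i => s j.sqrt i g) (nn (res (g α) (j + 1)))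
  have hσ : ∀ j, MF univ (σ j) := fun j => ((MF.res (mem_univ α) (j + 1)).map nn).comp
    (φ := fun n g => trc (fun i => s j.sqrt i g) n) fun n => mf_trc (hs _) n
  have hdm : Monotone d := fun _ _ h => Nat.sqrt_le_sqrt (Nat.sqrt_le_sqrt h)
  have hd2 : ∀ n, ∃ j, n < d j := fun n =>
    ⟨(n + 1) * (n + 1) * ((n + 1) * (n + 1)), by simp [d, Nat.sqrt_eq]⟩
  obtain ⟨P, F, hP0, hR, hcard, hmono, hF, hcov⟩ := exists_bookkeeping (I := I) (Om := O) d hdm
    (fun j => (Nat.sqrt_le_self _).trans (Nat.sqrt_le_self _)) hd2 (fun _ => True)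
    (fun j F p p' => ∃ (h : List O → Z I O → Finset (Finset ℕ)) (c' : ℕ → ℕ), p' ≤ p ∧
      KeepOn (F.filter (· < α)) (j + 1) p' p ∧
      (∀ g ∈ part (Iio α) p', KeepAbs (j + 1) (p'.tr α g) (p.tr α g)) ∧
      (∀ β ∈ F.filter (α < ·), ∀ g ∈ part (Iio β) p',
        Sq j (d j) (nn (res (g α) j)) (p'.tr β g) (p.tr β g)) ∧ (∀ u, MF (Iio α) (h u)) ∧
      (∀ w t g, (h (w :: t) g).card ≤ c' (nn t)) ∧
      ∀ g ∈ body p', (p.tr α g).stem.length ≤ j + 1 → {σ j g} ⊆ h (res (g α) (j + 1)) g ∨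
        ∃ β ∈ F.filter (α < ·), Destroy (d j) (p.tr β g).stem.length (nn (res (g α) j))
          (nn (res (g α) (j + 1))) (g β))
    (fun j F p hc _ => by
      obtain ⟨p', h, c', h1, -, h2⟩ := steps (α := α) j (d j) (Flo := F.filter (· < α))
        (fun γ hγ => (Finset.mem_filter.1 hγ).2) (F.filter (α < ·))
        (fun γ hγ => (Finset.mem_filter.1 hγ).2)
        (fun hne => lt_of_lt_of_le (hne.mono (Finset.filter_subset _ _)).card_pos hc) p univ
        (fun g => {σ j g}) (fun _ => 1) isLowerSet_univ trivial (subset_univ _)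
        ((hσ j).map fun z => ({z} : Finset (Finset ℕ)))
        (fun g _ => mem_Wset.2 ⟨by simp [σ, trc], by simp⟩)
      exact ⟨p', trivial, h, c', h1, h2⟩) p1 trivial
  choose h c hR1 hR2 hR3 hR4 hR5 hR6 hR7 using hR
  let κ : I → ℕ := fun β => if β = α then 0 else if h : ∃ j, β ∈ F j then Nat.find h else 0
  have hκ : ∀ β, β ≠ α → (∃ j, β ∈ F j) → ∀ k, κ β ≤ k ↔ β ∈ F k := by
    intro β h1 h2 k
    simp only [κ, h1, if_false, h2, dite_true]
    exact ⟨fun hk => hmono hk (Nat.find_spec h2), fun hk => Nat.find_min' h2 hk⟩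
  have hκα : κ α = 0 := by simp [κ]
  have hstem : ∀ β g, (∀ k, g ∈ part (Iio β) (P k)) → ∀ k, κ β ≤ k →
      ((P k).tr β g).stem = ((P (κ β)).tr β g).stem := by
    intro β g hg k hk
    refine stem_chain (T := fun k => (P k).tr β g) (fun k hk => ?_) hk
    rcases lt_trichotomy β α with h1 | rfl | h1
    · rcases hcov β with h2 | h2
      · exact (hR2 k β (Finset.mem_filter.2 ⟨(hκ β h1.ne h2 k).1 hk, h1⟩) g (hg _)).1
      · simp only [h2]
    · exact (hR3 k g (hg _)).1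
    · rcases hcov β with h2 | h2
      · exact (hR4 k β (Finset.mem_filter.2 ⟨(hκ β h1.ne' h2 k).1 hk, h1⟩) g (hg _)).1
      · simp only [h2]
  obtain ⟨q, hq1, hq2⟩ := exists_fusion isLowerSet_univ P hR1 κ (by
    intro β _ g hg
    refine ⟨hstem β g hg, fun t ht => ?_⟩
    have hanti : ∀ k l, κ β ≤ k → k ≤ l → ((P l).tr β g).succ t ⊆ ((P k).tr β g).succ t :=
      fun k l hk hl => Tr.succ_subset (ht _ (hk.trans hl))
        (br_subset (part_chain hR1 hl) (mem_univ β) (hg _)) (ht k hk).len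
    have habs : (∀ k, κ β ≤ k → KeepAbs (k + 1) ((P (k + 1)).tr β g) ((P k).tr β g)) →
        Pos {w | ∀ k, κ β ≤ k → w ∈ ((P k).tr β g).succ t} := by
      intro hk
      refine LC.mono ?_ (((P (max (κ β) t.length)).tr β g).pos t)
      intro w hw k hk'
      rcases le_total k (max (κ β) t.length) with h1 | h1
      · exact hanti _ _ hk' h1 hw
      · rw [(keepAbs_chain (T := fun k => (P k).tr β g) hk (le_max_left _ _) h1).2 t
          (Nat.lt_succ_of_le (le_max_right _ _))]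
        exact hw
    have htop : (∀ j g, (P j).tr β g = Tr.top) →
        Pos {w | ∀ k, κ β ≤ k → w ∈ ((P k).tr β g).succ t} := by
      intro h2
      simp only [h2]
      exact LC.mono (fun w _ k _ => mem_univ w) LC.univ
    rcases lt_trichotomy β α with h1 | rfl | h1
    · rcases hcov β with h2 | h2
      · exact habs fun k hk =>
          (hR2 k β (Finset.mem_filter.2 ⟨(hκ β h1.ne h2 k).1 hk, h1⟩) g (hg _)).abs le_rfl
      · exact htop h2
    · exact habs fun k _ => hR3 k g (hg _)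
    · rcases hcov β with h2 | h2
      · refine pos_iInter hanti fun m => ?_
        obtain ⟨j1, hj1⟩ := hd2 (max m t.length)
        let j0 := max (max (κ β) j1) (nn t)
        have hj0 : κ β ≤ j0 := (le_max_left _ _).trans (le_max_left _ _)
        obtain ⟨i0, hi0⟩ := pn_of_pos (((P j0).tr β g).pos t) j0 m
        have key : ∀ j, j0 ≤ j → ∃ i ≤ i0, PN j (((P j).tr β g).succ t) i m := by
          intro j hj
          induction hj with
          | refl => exact ⟨i0, le_rfl, hi0⟩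
          | @step j hj ih =>
            obtain ⟨i, h3, h4⟩ := ih
            have hj' : j0 ≤ j := hj
            have h5 : max m t.length < d j := hj1.trans_le
              (hdm (((le_max_right _ _).trans (le_max_left _ _)).trans hj'))
            have h6 := ht j (hj0.trans hj')
            obtain ⟨u, hu⟩ := h6.1
            obtain ⟨i', h7, h8⟩ := (hR4 j β (Finset.mem_filter.2
              ⟨(hκ β h1.ne' h2 j).1 (hj0.trans hj'), h1⟩) g (hg _)).2 t ⟨u, hu.symm, by
                have : u.length ≤ t.length := by rw [← hu]; simp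
                exact lt_of_le_of_lt (this.trans (le_max_right _ _)) h5, fun w hw => by
                have h9 : lev w + 1 ≤ nn t := List.single_le_sum (by simp) _
                  (List.mem_map.2 ⟨w, by rw [← hu]; simp [hw], rfl⟩)
                have h10 := le_nn (g α) j
                have h11 : nn t ≤ j0 := le_max_right _ _
                omega⟩ h6 m (lt_of_le_of_lt (le_max_left _ _) h5) i h4
            exact ⟨i', h7.trans h3, h8⟩
        exact ⟨i0, j0, fun j hj => (key j hj).imp fun i hi => ⟨hi.1, hi.2.cov⟩⟩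
      · exact htop h2)
  have ht0' : ∀ g, ((P 0).tr α g).stem = t0 := fun g => by rw [hP0, ht0]; rfl
  refine ⟨q, (hP0 ▸ hq1 0 : q ≤ p1).trans hp1, t0, fun u => h (u.length - 1) u,
    fun t => c t.length (nn t), fun g => by rw [(hq2 α g).1, hκα, ht0'], fun u => hR5 _ u,
    fun w t g => hR6 _ w t g, fun g hg k hk => ?_⟩
  have hgP : ∀ β k, g ∈ part (Iio β) (P k) := fun β k => body_subset _ _ (hq1 k hg)
  by_contra hc
  push Not at hc
  have hsq : ∀ j, k * k ≤ j → j < (k + 1) * (k + 1) → j.sqrt = k :=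
    fun j h1 h2 => (Nat.eq_sqrt.2 ⟨h1, h2⟩).symm
  have hk2 : k * k < (k + 1) * (k + 1) := by nlinarith
  let L : Finset ℕ := (F (k * k) ×ˢ Finset.range k.sqrt).image fun x =>
    lev (g x.1 (((P (κ x.1)).tr x.1 g).stem.length + x.2))
  have hL : L.card ≤ k := by
    refine Finset.card_image_le.trans ?_
    rw [Finset.card_product, Finset.card_range]
    have h1 := hcard (k * k)
    simp only [d, Nat.sqrt_eq] at h1
    exact (Nat.mul_le_mul_right _ h1).trans (Nat.sqrt_le k)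
  have hex : ∀ j, ∃ l, k * k ≤ j → j < (k + 1) * (k + 1) →
      l ∈ L ∧ nn (res (g α) j) < l ∧ l < nn (res (g α) (j + 1)) := by
    intro j
    by_cases hj : k * k ≤ j ∧ j < (k + 1) * (k + 1)
    swap
    · exact ⟨0, fun h1 h2 => absurd ⟨h1, h2⟩ hj⟩
    have h1 := hsq j hj.1 hj.2
    rcases hR7 j g (hq1 (j + 1) hg) (by
      rw [hstem α g (hgP α) j (by omega), hκα, ht0']
      nlinarith [hj.1]) with h2 | ⟨β, hβ, m, h2, h3, h4⟩
    · refine absurd ?_ (hc j hj.1 hj.2)
      simpa [σ, h1] using h2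
    · obtain ⟨h5, h6⟩ := Finset.mem_filter.1 hβ
      rw [hstem β g (hgP β) j ((hκ β h6.ne' ⟨j, h5⟩ j).2 h5)] at h2 h3
      refine ⟨_, fun _ _ => ⟨Finset.mem_image.2 ⟨(β, m - ((P (κ β)).tr β g).stem.length), ?_, ?_⟩,
        h4⟩⟩
      · refine Finset.mem_product.2 ⟨?_, Finset.mem_range.2 ?_⟩
        · rwa [← hF j (k * k) (by simp only [d, h1, Nat.sqrt_eq])]
        · simp only [d, h1] at h3
          omega
      · simp only [Nat.add_sub_cancel' h2]
  choose l hl using hex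
  have h1 : (Finset.Ico (k * k) ((k + 1) * (k + 1))).card ≤ L.card := by
    refine Finset.card_le_card_of_injOn l (fun j hj => ?_) fun j hj j' hj' hjj => ?_
    · have := Finset.mem_Ico.1 hj
      exact (hl j this.1 this.2).1
    · have h2 := Finset.mem_Ico.1 hj
      have h3 := Finset.mem_Ico.1 hj'
      obtain ⟨-, h4, h5⟩ := hl j h2.1 h2.2
      obtain ⟨-, h6, h7⟩ := hl j' h3.1 h3.2
      have h8 : j < j' + 1 := (nn_strictMono (g α)).lt_iff_lt.1 (by rw [hjj] at h4; exact h4.trans h7)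
      have h9 : j' < j + 1 := (nn_strictMono (g α)).lt_iff_lt.1 (by rw [hjj] at h5; exact h6.trans h5)
      omega
  rw [Nat.card_Ico] at h1
  have : (k + 1) * (k + 1) = k * k + 2 * k + 1 := by ring
  omega

/-- `u` is the trace below `l` of a member of `H w` for almost all `w ∈ A` -/
def Heavy (A : Set O) (H : O → Finset (Finset ℕ)) (l : ℕ) (u : Finset ℕ) : Prop :=
  ¬ Pos {w | w ∈ A ∧ ¬ ∃ z ∈ H w, trc (· ∈ z) l = u}

/-- the candidates for the bad points -/
def Cand (A : Set O) (H : O → Finset (Finset ℕ)) (l : ℕ) (u : Finset ℕ) (i : ℕ) : Prop :=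
  ∀ l', l ≤ l' → i < l' → ∃ u', Heavy A H l' u' ∧ trc (· ∈ u') l = u ∧ i ∈ u'

theorem trc_trc (x : ℕ → Prop) {l l' : ℕ} (h : l ≤ l') : trc (· ∈ trc x l') l = trc x l := by
  ext i
  simp only [mem_trc]
  exact ⟨fun h1 => ⟨h1.1, h1.2.2⟩, fun h1 => ⟨h1.1, h1.1.trans_le h, h1.2⟩⟩

theorem heavy_card {A : Set O} (hA : Pos A) {H : O → Finset (Finset ℕ)} {c : ℕ}
    (hc : ∀ w, (H w).card ≤ c) {l : ℕ} (U : Finset (Finset ℕ)) (hU : ∀ u ∈ U, Heavy A H l u) :
    U.card ≤ c := by
  classical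
  have : ∃ w ∈ A, ∀ u ∈ U, ∃ z ∈ H w, trc (· ∈ z) l = u := by
    by_contra h
    push Not at h
    obtain ⟨u, hu, h1⟩ := pos_biUnion U (fun u => {w | w ∈ A ∧ ¬ ∃ z ∈ H w, trc (· ∈ z) l = u})
      (LC.mono (fun w hw => by
        obtain ⟨u, h1, h2⟩ := h w hw
        exact mem_iUnion₂.2 ⟨u, h1, hw, by simpa using h2⟩) hA)
    exact hU u hu h1
  obtain ⟨w, -, hw⟩ := this
  refine le_trans ?_ (Finset.card_image_le.trans (hc w) :
    ((H w).image fun z => trc (· ∈ z) l).card ≤ c)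
  exact Finset.card_le_card fun u hu => Finset.mem_image.2 (hw u hu)

theorem exists_cand {A : Set O} (hA : Pos A) {H : O → Finset (Finset ℕ)} {c : ℕ}
    (hc : ∀ w, (H w).card ≤ c) {n : O → ℕ} (hn : ∀ w, lev w < n w) {x : ℕ → Prop}
    (hx : ¬ Pos {w | w ∈ A ∧ trc x (n w) ∉ H w}) : ∃ l u, ∀ i, x i ↔ Cand A H l u i := by
  classical
  have h1 : ∀ l, Heavy A H l (trc x l) := by
    intro l h
    refine hx (LC.mono (fun w hw => ⟨hw.1.1, fun h2 => hw.1.2 ⟨_, h2, trc_trc x ?_⟩⟩)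
      (pos_high h l))
    exact (hw.2.trans (hn w)).le
  by_contra h
  push Not at h
  have h2 : ∀ l, ∃ i, l ≤ i ∧ ¬ x i ∧ Cand A H l (trc x l) i := by
    intro l
    obtain ⟨i, hi⟩ := h l (trc x l)
    have h3 : x i → Cand A H l (trc x l) i := fun hi l' h3 h4 =>
      ⟨trc x l', h1 l', trc_trc x h3, mem_trc.2 ⟨h4, hi⟩⟩
    have h4 : ¬ x i ∧ Cand A H l (trc x l) i := by tauto
    refine ⟨i, ?_, h4⟩
    by_contra h5
    obtain ⟨u', -, h6, h7⟩ := h4.2 l le_rfl (not_le.1 h5)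
    exact h4.1 (mem_trc.1 (h6 ▸ mem_trc.2 ⟨not_le.1 h5, h7⟩ : i ∈ trc x l)).2
  choose e he1 he2 he3 using h2
  let L : ℕ → ℕ := fun r => Nat.rec 0 (fun _ l => e l + 1) r
  have hL : StrictMono L := strictMono_nat_of_lt_succ fun r => Nat.lt_succ_of_le (he1 _)
  have h3 : ∀ r, ∃ u, r < c + 1 → Heavy A H (L (c + 1)) u ∧ trc (· ∈ u) (L r) = trc x (L r) ∧
      e (L r) ∈ u := by
    intro r
    by_cases hr : r < c + 1
    · obtain ⟨u, hu⟩ := he3 (L r) (L (c + 1)) (hL.monotone hr.le)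
        (show L (r + 1) ≤ L (c + 1) from hL.monotone hr)
      exact ⟨u, fun _ => hu⟩
    · exact ⟨∅, fun h => absurd h hr⟩
  choose u hu using h3
  have h4 : ∀ r r', r < r' → r' < c + 1 → u r ≠ u r' := by
    intro r r' h4 h5 h6
    have h7 : e (L r) ∈ trc (· ∈ u r') (L r') :=
      mem_trc.2 ⟨show L (r + 1) ≤ L r' from hL.monotone h4, h6 ▸ (hu r (h4.trans h5)).2.2⟩
    rw [(hu r' h5).2.1] at h7
    exact he2 _ (mem_trc.1 h7).2
  have h5 := heavy_card hA hc ((Finset.range (c + 1)).image u) (l := L (c + 1)) (by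
    intro v hv
    obtain ⟨r, hr, rfl⟩ := Finset.mem_image.1 hv
    exact (hu r (Finset.mem_range.1 hr)).1)
  rw [Finset.card_image_of_injOn, Finset.card_range] at h5
  · omega
  · intro r hr r' hr' h6
    rcases lt_trichotomy r r' with h7 | h7 | h7
    · exact absurd h6 (h4 r r' h7 (by simpa using hr'))
    · exact h7
    · exact absurd h6.symm (h4 r' r h7 (by simpa using hr))

theorem main_avoid (α : I) (p0 : Cond I O) {s : ℕ → ℕ → Z I O → Prop}
    (hs : ∀ k i, MS univ (s k i)) :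
    ∃ p ≤ p0, ∃ (k0 : ℕ) (f : ℕ → ℕ → Z I O → Prop), (∀ m i, MS (Iio α) (f m i)) ∧
      ∀ (r : Cond I O) (ξ : ℕ → Z I O → Prop), part (Iio α) r ⊆ part (Iio α) p →
        (∀ i, MS (Iio α) (ξ i)) → (∀ g ∈ part (Iio α) r, ∀ m, ∃ i, ¬ (ξ i g ↔ f m i g)) →
        ∃ q ≤ p, part (Iio α) q ⊆ part (Iio α) r ∧ ∀ g ∈ body q, ∀ k, k0 ≤ k →
          ∃ i < nn (res (g α) ((k + 1) * (k + 1))), ¬ (s k i g ↔ ξ i g) := by
  classical
  obtain ⟨p, hp, t0, h, c, h1, h2, h3, h4⟩ := capture α p0 hs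
  obtain ⟨e, he⟩ := exists_surjective_nat (List O × ℕ × Finset ℕ)
  refine ⟨p, hp, t0.length, fun m i g => Cand ((p.tr α g).succ (e m).1)
    (fun w => h (w :: (e m).1) g) (e m).2.1 (e m).2.2 i, fun m i => ?_, fun r ξ hr hξ hne => ?_⟩
  · exact MS.all fun l' => (MS.const _).imp ((MS.const _).imp (MS.ex fun u' => MS.and
      (MS.pos fun w => ((p.meas α).2 _ w).and
        ((h2 _).pred fun H => ¬ ∃ z ∈ H, trc (· ∈ z) l' = u')).not (MS.const _)))
  obtain ⟨q, -, h5, -, h6, h7⟩ := exists_three α r p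
    (T := fun g => (p.tr α g).shrink (p.tr α g).stem fun t =>
      {w | trc (fun i => ξ i g) (nn (w :: t)) ∉ h (w :: t) g})
    ((p.meas α).shrink (p.meas α).1 fun t w => (MS.comp (mf_trc hξ (nn (w :: t)))
      (φ := fun z g => z ∈ h (w :: t) g) fun z => (h2 _).pred (z ∈ ·)).not)
  have hqp : q ≤ p := fun g hg => by
    obtain ⟨h8, h9, h10⟩ := (h7 g).1 hg
    exact (mem_body_three α).2 ⟨hr h8, Tr.shrink_br (Tr.node_stem _) _ h9, h10⟩
  refine ⟨q, hqp, h6.subset, fun g hg k hk => ?_⟩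
  obtain ⟨h8, h9, -⟩ := (h7 g).1 hg
  obtain ⟨j, hj1, hj2, hj3⟩ := h4 g (hqp hg) k hk
  have h10 := Tr.mem_of_shrink (h9.2 j (by
    change (p.tr α g).stem.length ≤ j
    rw [h1]
    nlinarith)) (by
      by_contra hc
      obtain ⟨l, u, h11⟩ := exists_cand ((p.tr α g).pos (res (g α) j))
        (H := fun w => h (w :: res (g α) j) g) (fun w => h3 w _ g)
        (n := fun w => nn (w :: res (g α) j)) (fun w => by rw [nn_cons]; omega) hc
      obtain ⟨m, hm⟩ := he (res (g α) j, l, u)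
      obtain ⟨i, hi⟩ := hne g h8 m
      simp only [hm] at hi
      exact hi (h11 i))
  by_contra hc
  push Not at hc
  apply h10
  rw [← res_succ]
  convert hj3 using 1
  ext i
  simp only [mem_trc]
  refine and_congr_right fun hi => (hc i (hi.trans_le ((nn_strictMono (g α)).monotone hj2))).symm

end Pool.Agent.H589Z.CS
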