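import Pool.Agent.H589Z.CS.Meas

/-!
# Conditions of the countable support iteration, coded by measurable tree valued functions
-/

set_option autoImplicit false
set_option linter.unusedSectionVars false

namespace Pool.Agent.H589Z.CS

open Set PiNat MeasureTheory

/-- A condition. -/
structure Cond (I Om : Type) [LinearOrder I] [LC Om] where
  tr : I → Z I Om → Tr Om
  meas : ∀ β, MT (Iio β) (tr β)
  supp : ∃ s : Set I, s.Countable ∧ ∀ β ∉ s, ∀ g, tr β g = Tr.top

variable {I Om : Type} [LinearOrder I] [WellFoundedLT I] [LC Om] [Countable Om]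

/-- The sequences which follow `p` on the coordinates in `a`. -/
def part (a : Set I) (p : Cond I Om) : Set (Z I Om) := {g | ∀ γ ∈ a, g γ ∈ (p.tr γ g).br}

/-- The body of a condition. -/
abbrev body (p : Cond I Om) : Set (Z I Om) := part univ p

instance : Preorder (Cond I Om) where
  le q p := body q ⊆ body p
  le_refl _ := Subset.rfl
  le_trans _ _ _ h h' := Subset.trans h h'

theorem le_iff {q p : Cond I Om} : q ≤ p ↔ body q ⊆ body p := Iff.rfl

/-- The trivial condition. -/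
def Cond.top : Cond I Om := ⟨fun _ _ => Tr.top, fun _ => MT.const _, ∅, countable_empty,
  fun _ _ _ => rfl⟩

instance : Nonempty (Cond I Om) := ⟨Cond.top⟩

theorem part_anti {a b : Set I} (h : a ⊆ b) (p : Cond I Om) : part b p ⊆ part a p :=
  fun _ hg γ hγ => hg γ (h hγ)

theorem body_subset (a : Set I) (p : Cond I Om) : body p ⊆ part a p :=
  part_anti (subset_univ a) p

theorem mem_part_union {a b : Set I} {p : Cond I Om} {g : Z I Om} :
    g ∈ part (a ∪ b) p ↔ g ∈ part a p ∧ g ∈ part b p :=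
  ⟨fun h => ⟨part_anti subset_union_left p h, part_anti subset_union_right p h⟩,
    fun h γ hγ => hγ.elim (h.1 γ) (h.2 γ)⟩

theorem mem_body_iff (a : Set I) {p : Cond I Om} {g : Z I Om} :
    g ∈ body p ↔ g ∈ part a p ∧ g ∈ part aᶜ p := by
  rw [← mem_part_union, union_compl_self]

theorem mem_body_Iio (β : I) {p : Cond I Om} {g : Z I Om} :
    g ∈ body p ↔ g ∈ part (Iio β) p ∧ g ∈ part (Ici β) p := by
  rw [mem_body_iff (Iio β), compl_Iio]

theorem Cond.tr_eq (p : Cond I Om) {β : I} {g g' : Z I Om} (h : Agree (Iio β) g g') :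
    p.tr β g = p.tr β g' := (p.meas β).inv h

theorem lower_Iio {a : Set I} (ha : IsLowerSet a) {β : I} (hβ : β ∈ a) : Iio β ⊆ a :=
  fun _ h => ha (le_of_lt h) hβ

theorem lower_Iic {a : Set I} (ha : IsLowerSet a) {β : I} (hβ : β ∈ a) : Iic β ⊆ a :=
  fun _ h => ha h hβ

theorem lower_subset_Iio {a : Set I} (ha : IsLowerSet a) {β : I} (hβ : β ∉ a) : a ⊆ Iio β :=
  fun _ h => lt_of_not_ge fun h' => hβ (ha h' h)

theorem ms_part {a b : Set I} (hb : IsLowerSet b) (h : a ⊆ b) (p : Cond I Om) :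
    MS b (· ∈ part a p) := by
  obtain ⟨s, hs, h1⟩ := p.supp
  have := hs.to_subtype
  refine (MS.all fun γ : s => MS.all fun hγ : γ.1 ∈ a =>
    ((p.meas γ).mono (lower_Iio hb (h hγ))).br (h hγ)).congr fun g => ?_
  constructor
  · intro hg γ hγ
    by_cases h2 : γ ∈ s
    · exact hg ⟨γ, h2⟩ hγ
    · rw [h1 γ h2]; exact Tr.mem_br_top _
  · intro hg γ hγ
    exact hg γ hγ

theorem ms_low {a : Set I} (ha : IsLowerSet a) (p : Cond I Om) : MS a (· ∈ part a p) :=
  ms_part ha Subset.rfl p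

theorem ms_body (p : Cond I Om) : MS univ (· ∈ body p) := ms_low isLowerSet_univ p

theorem mem_part_agree {a : Set I} (ha : IsLowerSet a) {p : Cond I Om} {g g' : Z I Om}
    (h : Agree a g g') (hg : g ∈ part a p) : g' ∈ part a p := ((ms_low ha p).inv h).1 hg

/-- Extension of a sequence which follows `p` on an initial segment. -/
theorem exists_ext {a : Set I} (ha : IsLowerSet a) {p : Cond I Om} {g : Z I Om}
    (hg : g ∈ part a p) : ∃ g' ∈ body p, Agree a g g' := by
  classical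
  choose c hc using fun T : Tr Om => T.br_nonempty
  let G : Z I Om := (wellFounded_lt (α := I)).fix fun γ G' =>
    if γ ∈ a then g γ else c (p.tr γ fun δ => if h : δ < γ then G' δ h else g δ)
  have hG : ∀ γ, G γ =
      if γ ∈ a then g γ else c (p.tr γ fun δ => if δ < γ then G δ else g δ) := by
    intro γ
    simp only [G]
    rw [WellFounded.fix_eq]
    rfl
  have hag : Agree a g G := fun γ hγ => by rw [hG, if_pos hγ]
  refine ⟨G, fun γ _ => ?_, hag⟩
  by_cases hγ : γ ∈ a
  · exact mem_part_agree ha hag hg γ hγ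
  · have : p.tr γ G = p.tr γ fun δ => if δ < γ then G δ else g δ :=
      p.tr_eq fun δ hδ => by simp only [mem_Iio.1 hδ, if_true]
    rw [this, hG, if_neg hγ]
    exact hc _

theorem body_nonempty (p : Cond I Om) : (body p).Nonempty := by
  obtain ⟨x, -⟩ := (Tr.top : Tr Om).br_nonempty
  obtain ⟨g, hg, -⟩ := exists_ext isLowerSet_empty (p := p) (g := fun _ => x)
    (fun _ h => h.elim)
  exact ⟨g, hg⟩

theorem part_nonempty (a : Set I) (p : Cond I Om) : (part a p).Nonempty :=
  (body_nonempty p).mono (body_subset a p)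

/-- A measurable statement true on the body is true on the lower part. -/
theorem low_of_body {a : Set I} (ha : IsLowerSet a) {p : Cond I Om} {s : Z I Om → Prop}
    (hs : MS a s) (h : ∀ g ∈ body p, s g) : ∀ g ∈ part a p, s g := by
  intro g hg
  obtain ⟨g', h1, h2⟩ := exists_ext ha hg
  exact (hs.inv h2).2 (h g' h1)

theorem part_mono {a b : Set I} (hb : IsLowerSet b) (hba : b ⊆ a) {q p : Cond I Om}
    (h : part a q ⊆ part a p) : part b q ⊆ part b p :=
  low_of_body hb (ms_low hb p) fun _ hg => part_anti hba p (h (body_subset a q hg))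

theorem low_mono {b : Set I} (hb : IsLowerSet b) {q p : Cond I Om} (h : q ≤ p) :
    part b q ⊆ part b p := part_mono hb (subset_univ b) h

theorem agree_update (g : Z I Om) (β : I) (x : ℕ → Om) :
    Agree (Iio β) g (Function.update g β x) := fun γ hγ => by
  rw [Function.update_of_ne (ne_of_lt hγ)]

theorem exists_ext_br {p : Cond I Om} {β : I} {g : Z I Om} (hg : g ∈ part (Iio β) p)
    {x : ℕ → Om} (hx : x ∈ (p.tr β g).br) : ∃ g' ∈ body p, Agree (Iio β) g g' ∧ g' β = x := by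
  have h1 := agree_update g β x
  have h2 : Function.update g β x ∈ part (Iic β) p := by
    intro γ hγ
    rcases (mem_Iic.1 hγ).lt_or_eq with h | rfl
    · exact mem_part_agree (isLowerSet_Iio β) h1 hg γ h
    · rw [← p.tr_eq h1]
      simpa using hx
  obtain ⟨g', h3, h4⟩ := exists_ext (isLowerSet_Iic β) h2
  refine ⟨g', h3, h1.trans (h4.mono Iio_subset_Iic_self), ?_⟩
  rw [← h4 β (mem_Iic.2 le_rfl)]
  simp

theorem br_subset {a : Set I} {q p : Cond I Om} (h : part a q ⊆ part a p) {β : I} (hβ : β ∈ a)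
    {g : Z I Om} (hg : g ∈ part (Iio β) q) : (q.tr β g).br ⊆ (p.tr β g).br := by
  intro x hx
  obtain ⟨g', h1, h2, rfl⟩ := exists_ext_br hg hx
  rw [p.tr_eq h2]
  exact h (body_subset a q h1) β hβ

open Classical in
/-- `q` on `a` and `p` elsewhere. -/
noncomputable def glue (a : Set I) (q p : Cond I Om) : Cond I Om where
  tr γ := if γ ∈ a then q.tr γ else p.tr γ
  meas γ := by split_ifs; exacts [q.meas γ, p.meas γ]
  supp := by
    obtain ⟨s, hs, h⟩ := q.supp
    obtain ⟨s', hs', h'⟩ := p.supp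
    refine ⟨s ∪ s', hs.union hs', fun β hβ g => ?_⟩
    rw [mem_union, not_or] at hβ
    split_ifs
    exacts [h β hβ.1 g, h' β hβ.2 g]

theorem glue_in {a : Set I} (q p : Cond I Om) {γ : I} (h : γ ∈ a) :
    (glue a q p).tr γ = q.tr γ := by simp [glue, h]

theorem glue_out {a : Set I} (q p : Cond I Om) {γ : I} (h : γ ∉ a) :
    (glue a q p).tr γ = p.tr γ := by simp [glue, h]

theorem part_congr {s : Set I} {q p : Cond I Om} (h : ∀ γ ∈ s, q.tr γ = p.tr γ) :
    part s q = part s p := by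
  ext g
  exact ⟨fun hg γ hγ => h γ hγ ▸ hg γ hγ, fun hg γ hγ => (h γ hγ).symm ▸ hg γ hγ⟩

theorem part_glue_in {a s : Set I} (q p : Cond I Om) (h : s ⊆ a) :
    part s (glue a q p) = part s q := part_congr fun _ hγ => glue_in q p (h hγ)

theorem part_glue_out {a s : Set I} (q p : Cond I Om) (h : s ⊆ aᶜ) :
    part s (glue a q p) = part s p := part_congr fun _ hγ => glue_out q p (h hγ)

theorem mem_body_glue {a : Set I} {q p : Cond I Om} {g : Z I Om} :
    g ∈ body (glue a q p) ↔ g ∈ part a q ∧ g ∈ part aᶜ p := by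
  rw [mem_body_iff a, part_glue_in _ _ Subset.rfl, part_glue_out _ _ Subset.rfl]

theorem glue_le {a : Set I} {q p : Cond I Om} (h : part a q ⊆ part a p) : glue a q p ≤ p :=
  fun _ hg => (mem_body_iff a).2 ⟨h (mem_body_glue.1 hg).1, (mem_body_glue.1 hg).2⟩

theorem body_restrict (a : Set I) (q : Cond I Om) : body (glue a q Cond.top) = part a q := by
  ext g
  rw [mem_body_glue]
  exact ⟨fun h => h.1, fun h => ⟨h, fun _ _ => Tr.mem_br_top _⟩⟩

open Classical in
/-- Replace the tree at `β`. -/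
noncomputable def setAt (β : I) (T : Z I Om → Tr Om) (hT : MT (Iio β) T) (p : Cond I Om) :
    Cond I Om where
  tr γ := if γ = β then T else p.tr γ
  meas γ := by
    split_ifs with h
    · rw [h]; exact hT
    · exact p.meas γ
  supp := by
    obtain ⟨s, hs, h⟩ := p.supp
    refine ⟨insert β s, hs.insert _, fun γ hγ g => ?_⟩
    rw [mem_insert_iff, not_or] at hγ
    rw [if_neg hγ.1, h γ hγ.2]

theorem setAt_self {β : I} {T : Z I Om → Tr Om} (hT : MT (Iio β) T) (p : Cond I Om) :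
    (setAt β T hT p).tr β = T := by simp [setAt]

theorem setAt_ne {β γ : I} {T : Z I Om → Tr Om} (hT : MT (Iio β) T) (p : Cond I Om) (h : γ ≠ β) :
    (setAt β T hT p).tr γ = p.tr γ := by simp [setAt, h]

/-- lower part `r`, tree `T` at `β`, tail `p` -/
theorem exists_three (β : I) (r p : Cond I Om) {T : Z I Om → Tr Om} (hT : MT (Iio β) T) :
    ∃ q : Cond I Om, (∀ γ < β, q.tr γ = r.tr γ) ∧ q.tr β = T ∧ (∀ γ, β < γ → q.tr γ = p.tr γ) ∧
      part (Iio β) q = part (Iio β) r ∧
      ∀ g, g ∈ body q ↔ g ∈ part (Iio β) r ∧ g β ∈ (T g).br ∧ g ∈ part (Ioi β) p := by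
  let q := setAt β T hT (glue (Iio β) r p)
  have h1 : ∀ γ < β, q.tr γ = r.tr γ := fun γ hγ => by
    rw [setAt_ne _ _ hγ.ne, glue_in _ _ (mem_Iio.2 hγ)]
  have h2 : q.tr β = T := setAt_self _ _
  have h3 : ∀ γ, β < γ → q.tr γ = p.tr γ := fun γ hγ => by
    rw [setAt_ne _ _ hγ.ne', glue_out _ _ (by simpa using hγ.le)]
  refine ⟨q, h1, h2, h3, part_congr h1, fun g => ⟨fun hg => ⟨fun γ hγ => h1 γ hγ ▸ hg γ trivial,
    h2 ▸ hg β trivial, fun γ hγ => h3 γ hγ ▸ hg γ trivial⟩, fun hg γ _ => ?_⟩⟩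
  rcases lt_trichotomy γ β with h | rfl | h
  · rw [h1 γ h]; exact hg.1 γ h
  · rw [h2]; exact hg.2.1
  · rw [h3 γ h]; exact hg.2.2 γ h

theorem mem_part_Ici {β : I} {p : Cond I Om} {g : Z I Om} :
    g ∈ part (Ici β) p ↔ g β ∈ (p.tr β g).br ∧ g ∈ part (Ioi β) p :=
  ⟨fun h => ⟨h β (mem_Ici.2 le_rfl), part_anti Ioi_subset_Ici_self p h⟩, fun h γ hγ => by
    rcases (mem_Ici.1 hγ).lt_or_eq with h' | rfl
    · exact h.2 γ h'
    · exact h.1⟩

theorem mem_body_three (β : I) {p : Cond I Om} {g : Z I Om} :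
    g ∈ body p ↔ g ∈ part (Iio β) p ∧ g β ∈ (p.tr β g).br ∧ g ∈ part (Ioi β) p := by
  rw [mem_body_Iio β, mem_part_Ici]

/-- piecewise definition above an initial segment -/
theorem exists_pw {a : Set I} (ha : IsLowerSet a) {V : Type} [Countable V] {ι : Z I Om → V}
    (hι : MF a ι) (r : Cond I Om) (q : V → Cond I Om) :
    ∃ s : Cond I Om, (∀ γ ∈ a, s.tr γ = r.tr γ) ∧
      ∀ γ ∉ a, ∀ g, s.tr γ g = (q (ι g)).tr γ g := by
  classical
  obtain ⟨s0, hs0, h0⟩ := r.supp
  choose s hs h using fun v => (q v).supp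
  refine ⟨⟨fun γ => if γ ∈ a then r.tr γ else fun g => (q (ι g)).tr γ g, fun γ => ?_,
    s0 ∪ ⋃ v, s v, hs0.union (countable_iUnion hs), fun β hβ g => ?_⟩,
    fun γ hγ => if_pos hγ, fun γ hγ g => by simp only [if_neg hγ]⟩
  · split_ifs with hγ
    · exact r.meas γ
    · exact MT.comp (hι.mono (lower_subset_Iio ha hγ)) (T := fun v => (q v).tr γ)
        fun v => (q v).meas γ
  · simp only [mem_union, mem_iUnion, not_or, not_exists] at hβ
    split_ifs
    · exact h0 β hβ.1 g
    · exact h _ β (hβ.2 _) g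

/-- Amalgamation of conditions along an antichain of exit nodes. -/
theorem exists_amalgam (β : I) (r p : Cond I Om) {T : Z I Om → Tr Om} (hT : MT (Iio β) T)
    {X : Z I Om → List Om → Prop} (hX : ∀ u, MS (Iio β) fun g => X g u)
    (hanti : ∀ g u u', u <:+ u' → X g u → X g u' → u = u') (q : List Om → Cond I Om) :
    ∃ s : Cond I Om, (∀ γ < β, s.tr γ = r.tr γ) ∧ (∀ g, (s.tr β g).stem = (T g).stem) ∧
      (∀ g t, (∀ u, u <:+ t → ¬ X g u) → (s.tr β g).succ t = (T g).succ t) ∧
      (∀ g ∈ part (Ici β) s, (∀ m, ¬ X g (res (g β) m)) →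
        g β ∈ (T g).br ∧ g ∈ part (Ioi β) p) ∧
      (∀ g ∈ part (Ici β) s, ∀ m, X g (res (g β) m) → (T g).stem.length ≤ m →
        (T g).Node (res (g β) m) ∧
          (((q (res (g β) m)).tr β g).stem = res (g β) m → g ∈ part (Ici β) (q (res (g β) m)))) := by
  classical
  let T' : Z I Om → Tr Om := fun g => ⟨(T g).stem, fun t =>
    {w | (∃ u, u <:+ t ∧ X g u ∧ w ∈ ((q u).tr β g).succ t) ∨
      ((∀ u, u <:+ t → ¬ X g u) ∧ w ∈ (T g).succ t)}, fun t => by
      by_cases h : ∃ u, u <:+ t ∧ X g u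
      · obtain ⟨u, h1, h2⟩ := h
        exact LC.mono (fun w hw => Or.inl ⟨u, h1, h2, hw⟩) (((q u).tr β g).pos t)
      · exact LC.mono (fun w hw => Or.inr ⟨fun u h1 h2 => h ⟨u, h1, h2⟩, hw⟩) ((T g).pos t)⟩
  have hT' : MT (Iio β) T' := ⟨hT.1, fun t w =>
    (MS.ex fun u => (MS.const _).and ((hX u).and (((q u).meas β).2 t w))).or
      ((MS.all fun u => (MS.const _).imp (hX u).not).and (hT.2 t w))⟩
  have hs1 : ∀ g t, (∀ u, u <:+ t → ¬ X g u) → (T' g).succ t = (T g).succ t := by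
    intro g t h
    ext w
    exact ⟨fun hw => hw.elim (fun ⟨u, h1, h2, _⟩ => absurd h2 (h u h1)) (·.2),
      fun hw => Or.inr ⟨h, hw⟩⟩
  have hs2 : ∀ g t u, u <:+ t → X g u → (T' g).succ t ⊆ ((q u).tr β g).succ t := by
    intro g t u h1 h2 w hw
    rcases hw with ⟨u', h3, h4, h5⟩ | ⟨h3, -⟩
    · have : u = u' := by
        rcases List.suffix_or_suffix_of_suffix h1 h3 with h | h
        · exact hanti g _ _ h h2 h4
        · exact (hanti g _ _ h h4 h2).symm
      exact this ▸ h5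
    · exact absurd h2 (h3 u h1)
  have hXm : ∀ m, MS (Iic β) fun g : Z I Om => X g (res (g β) m) := fun m =>
    MS.comp (MF.res (mem_Iic.2 le_rfl) m) (φ := fun u g => X g u)
      fun u => (hX u).mono Iio_subset_Iic_self
  obtain ⟨ι, hι, hι'⟩ := exists_sel (a := Iic β) (V := Option (List Om))
    (φ := fun o g => (∃ m, X g (res (g β) m) ∧ o = some (res (g β) m)) ∨
      ((∀ m, ¬ X g (res (g β) m)) ∧ o = none))
    (fun o => (MS.ex fun m => (hXm m).and ((MF.res (mem_Iic.2 le_rfl) m).pred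
      fun u => o = some u)).or ((MS.all fun m => (hXm m).not).and (MS.const _)))
  have hι'' : ∀ g, (∃ m, X g (res (g β) m) ∧ ι g = some (res (g β) m)) ∨
      ((∀ m, ¬ X g (res (g β) m)) ∧ ι g = none) := fun g => hι' g (by
    by_cases h : ∃ m, X g (res (g β) m)
    · obtain ⟨m, hm⟩ := h
      exact ⟨_, Or.inl ⟨m, hm, rfl⟩⟩
    · exact ⟨none, Or.inr ⟨fun m hm => h ⟨m, hm⟩, rfl⟩⟩)
  obtain ⟨s, h1, h2⟩ := exists_pw (isLowerSet_Iic β) hι (setAt β T' hT' r)
    fun o => o.elim p q
  have hβ : s.tr β = T' := by rw [h1 β (mem_Iic.2 le_rfl), setAt_self]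
  refine ⟨s, fun γ hγ => by rw [h1 γ (mem_Iic.2 hγ.le), setAt_ne _ _ hγ.ne],
    fun g => by rw [hβ], fun g t h => by rw [hβ]; exact hs1 g t h, fun g hg h => ?_,
    fun g hg m hm hl => ?_⟩
  · obtain ⟨h3, h4⟩ := mem_part_Ici.1 hg
    rw [hβ] at h3
    refine ⟨⟨h3.1, fun n hn => ?_⟩, fun γ hγ => ?_⟩
    · rw [← hs1 g _ fun u hu => eq_res_of_suffix hu ▸ h _]
      exact h3.2 n hn
    · have h5 := h4 γ hγ
      rw [h2 γ (by simpa using hγ)] at h5
      rcases hι'' g with ⟨m, h6, -⟩ | ⟨-, h6⟩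
      · exact absurd h6 (h m)
      · rwa [h6] at h5
  · obtain ⟨h3, h4⟩ := mem_part_Ici.1 hg
    rw [hβ] at h3
    refine ⟨Tr.node_res h3.1 hl fun n hn hnm => ?_, fun hst => mem_part_Ici.2 ⟨⟨?_, ?_⟩, ?_⟩⟩
    · rw [← hs1 g _ fun u hu hXu => ?_]
      · exact h3.2 n hn
      · have h5 := hanti g _ _ (hu.trans (res_suffix _ hnm.le)) hXu hm
        have h6 := hu.length_le
        rw [h5] at h6
        simp at h6
        omega
    · rw [hst]; simp
    · intro n hn
      rw [hst, res_length] at hn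
      exact hs2 g _ _ (res_suffix _ hn) hm (h3.2 n (hl.trans hn))
    · intro γ hγ
      have h5 := h4 γ hγ
      rw [h2 γ (by simpa using hγ)] at h5
      rcases hι'' g with ⟨m', h6, h7⟩ | ⟨h6, -⟩
      · have : res (g β) m' = res (g β) m := by
          rcases le_total m m' with h | h
          · exact (hanti g _ _ (res_suffix _ h) hm h6).symm
          · exact hanti g _ _ (res_suffix _ h) h6 hm
        rw [h7, this] at h5
        exact h5
      · exact absurd hm (h6 m)

/-- Fusion. -/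
theorem exists_fusion {a : Set I} (ha : IsLowerSet a) (p : ℕ → Cond I Om)
    (hp : ∀ k, part a (p (k + 1)) ⊆ part a (p k)) (κ : I → ℕ)
    (h : ∀ β ∈ a, ∀ g, (∀ k, g ∈ part (Iio β) (p k)) →
      (∀ k, κ β ≤ k → ((p k).tr β g).stem = ((p (κ β)).tr β g).stem) ∧
      ∀ t, (∀ k, κ β ≤ k → ((p k).tr β g).Node t) →
        Pos {w | ∀ k, κ β ≤ k → w ∈ ((p k).tr β g).succ t}) :
    ∃ q : Cond I Om, (∀ k, part a q ⊆ part a (p k)) ∧
      ∀ β g, (q.tr β g).stem = ((p (κ β)).tr β g).stem ∧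
        ∀ t, Pos {w | ∀ k, κ β ≤ k → w ∈ ((p k).tr β g).succ t} →
          (q.tr β g).succ t = {w | ∀ k, κ β ≤ k → w ∈ ((p k).tr β g).succ t} := by
  choose s hs hs' using fun k => (p k).supp
  let q : Cond I Om := ⟨fun β g => Tr.top.shrink ((p (κ β)).tr β g).stem
      fun t => {w | ∀ k, κ β ≤ k → w ∈ ((p k).tr β g).succ t},
    fun β => (MT.const _).shrink ((p _).meas β).1 fun t w =>
      MS.all fun k => (MS.const _).imp (((p k).meas β).2 t w),
    ⋃ k, s k, countable_iUnion hs, fun β hβ g => by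
      simp only [mem_iUnion, not_exists] at hβ
      simp only [fun k => hs' k β (hβ k) g]
      ext1
      · rfl
      · funext t
        simp [Tr.shrink, Tr.top]⟩
  have hq : ∀ β g t, Pos {w | ∀ k, κ β ≤ k → w ∈ ((p k).tr β g).succ t} →
      (q.tr β g).succ t = {w | ∀ k, κ β ≤ k → w ∈ ((p k).tr β g).succ t} := by
    intro β g t ht
    simp [q, Tr.shrink, Tr.top, ht]
  have hmono : ∀ k l, k ≤ l → part a (p l) ⊆ part a (p k) := by
    intro k l hkl
    induction hkl with
    | refl => exact Subset.rfl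
    | step _ ih => exact (hp _).trans ih
  refine ⟨q, ?_, fun β g => ⟨rfl, hq β g⟩⟩
  suffices H : ∀ g ∈ part a q, ∀ β ∈ a, ∀ k, g β ∈ ((p k).tr β g).br from
    fun k g hg β hβ => H g hg β hβ k
  intro g hg β
  induction β using WellFoundedLT.induction with
  | ind β ih =>
    intro hβ
    have hlow : ∀ k, g ∈ part (Iio β) (p k) := fun k γ hγ => ih γ hγ (lower_Iio ha hβ hγ) k
    obtain ⟨h1, h2⟩ := h β hβ g hlow
    have h3 := hg β hβ
    have h4 : ∀ m, ((p (κ β)).tr β g).stem.length ≤ m →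
        ∀ k, κ β ≤ k → ((p k).tr β g).Node (res (g β) m) := by
      intro m hm
      induction hm with
      | refl =>
        intro k hk
        have := h3.1
        change res (g β) ((p (κ β)).tr β g).stem.length = ((p (κ β)).tr β g).stem at this
        rw [this, ← h1 k hk]
        exact Tr.node_stem _
      | @step m hm ih2 =>
        intro k hk
        have h5 := h3.2 m hm
        rw [hq β g _ (h2 _ ih2)] at h5
        exact (ih2 k hk).cons (h5 k hk)
    intro k
    refine br_subset (hmono k (max k (κ β)) (le_max_left _ _)) hβ (hlow _) ?_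
    exact Tr.mem_br_of_nodes fun m => ⟨max m _, le_max_left _ _,
      h4 _ (le_max_right _ _) _ (le_max_right _ _)⟩

/-- Bookkeeping for fusion arguments. -/
theorem exists_bookkeeping [Nonempty I] (d : ℕ → ℕ) (hd : Monotone d) (hd1 : ∀ j, d j ≤ j)
    (hd2 : ∀ n, ∃ j, n < d j) (Inv : Cond I Om → Prop)
    (R : ℕ → Finset I → Cond I Om → Cond I Om → Prop)
    (hR : ∀ j F p, F.card ≤ d j → Inv p → ∃ q, Inv q ∧ R j F p q) (p0 : Cond I Om) (h0 : Inv p0) :
    ∃ (p : ℕ → Cond I Om) (F : ℕ → Finset I), p 0 = p0 ∧ (∀ j, R j (F j) (p j) (p (j + 1))) ∧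
      (∀ j, (F j).card ≤ d j) ∧ Monotone F ∧ (∀ j j', d j = d j' → F j = F j') ∧
      ∀ β, (∃ j, β ∈ F j) ∨ ∀ j g, (p j).tr β g = Tr.top := by
  classical
  have hen : ∀ p : Cond I Om, ∃ e : ℕ → I, ∀ β ∉ range e, ∀ g, p.tr β g = Tr.top := by
    intro p
    obtain ⟨s, hs, h⟩ := p.supp
    obtain ⟨e, he⟩ := countable_iff_exists_subset_range.1 hs
    exact ⟨e, fun β hβ => h β fun h' => hβ (he h')⟩
  choose en hen using hen
  let FF : ℕ → (ℕ → ℕ → I) → Finset I := fun j E =>
    (Finset.range (d j)).image fun m => E m.unpair.1 m.unpair.2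
  have hFF : ∀ j E, (FF j E).card ≤ d j := fun j E =>
    Finset.card_image_le.trans (by simp)
  choose nx hnx hnx' using hR
  let S : ℕ → {p : Cond I Om // Inv p} × (ℕ → ℕ → I) := fun j => Nat.rec
    (⟨p0, h0⟩, fun _ => en p0)
    (fun j x => (⟨nx j (FF j x.2) x.1.1 (hFF _ _) x.1.2, hnx _ _ _ _ _⟩,
      Function.update x.2 (j + 1) (en (nx j (FF j x.2) x.1.1 (hFF _ _) x.1.2)))) j
  have hE : ∀ j i, i ≤ j → (S j).2 i = en (S i).1.1 := by
    intro j
    induction j with
    | zero => intro i hi; obtain rfl := Nat.le_zero.1 hi; rfl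
    | succ j ih =>
      intro i hi
      rcases hi.lt_or_eq with h | rfl
      · rw [← ih i (Nat.lt_succ_iff.1 h)]
        exact Function.update_of_ne h.ne _ _
      · exact Function.update_self ..
  have hF : ∀ j, FF j (S j).2 =
      (Finset.range (d j)).image fun m => en (S m.unpair.1).1.1 m.unpair.2 := by
    intro j
    refine Finset.image_congr fun m hm => ?_
    have h1 : m < d j := by simpa using hm
    rw [hE j _ ((Nat.unpair_left_le m).trans (h1.le.trans (hd1 j)))]
  refine ⟨fun j => (S j).1.1, fun j => FF j (S j).2, rfl, fun j => hnx' _ _ _ (hFF _ _) (S j).1.2,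
    fun j => hFF _ _, fun j j' hj => ?_, fun j j' hj => ?_, fun β => ?_⟩
  · simp only [hF]
    exact Finset.image_subset_image (Finset.range_subset_range.2 (hd hj))
  · simp only [hF, hj]
  · by_cases h : ∃ j, β ∈ range (en (S j).1.1)
    · obtain ⟨j, i, rfl⟩ := h
      obtain ⟨j', hj'⟩ := hd2 (Nat.pair j i)
      refine Or.inl ⟨j', ?_⟩
      simp only [hF]
      exact Finset.mem_image.2 ⟨Nat.pair j i, Finset.mem_range.2 hj', by simp⟩
    · exact Or.inr fun j g => hen _ β (fun h' => h ⟨j, h'⟩) g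

end Pool.Agent.H589Z.CS
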