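import Pool.Agent.H589Z.CS.Capture
import Pool.Agent.H589Z.BDefs

/-!
# The iteration forces the principles A and B
-/

set_option autoImplicit false
set_option linter.unusedSectionVars false
set_option maxHeartbeats 400000

namespace Pool.Agent.H589Z.CS

open Set PiNat MeasureTheory Cardinal Pool.Agent.H589Z.BSet

section Lang

universe v w

variable {P : Type} [Preorder P]

theorem mem_fex {ι : Sort v} {φ : ι → Set P} {p : P} :
    p ∈ fex φ ↔ ∀ q ≤ p, ∃ r ≤ q, ∃ i, r ∈ φ i := by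
  simp only [fex, fnot, fall, Set.mem_ofPred_eq, not_forall, not_not]
  constructor
  · intro h q hq
    obtain ⟨i, r, hr, h'⟩ := h q hq
    exact ⟨r, hr, i, h'⟩
  · intro h q hq
    obtain ⟨r, hr, i, h'⟩ := h q hq
    exact ⟨i, r, hr, h'⟩

theorem mem_fimp {φ ψ : Set P} {p : P} :
    p ∈ fimp φ ψ ↔ ∀ q ≤ p, q ∈ φ → ∃ r ≤ q, r ∈ ψ := by
  simp only [fimp, fnot, fand, Set.mem_ofPred_eq, not_and, not_forall, not_not]
  constructor
  · intro h q hq h'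
    obtain ⟨r, hr, h''⟩ := h q hq h'
    exact ⟨r, hr, h''⟩
  · intro h q hq h'
    obtain ⟨r, hr, h''⟩ := h q hq h'
    exact ⟨r, hr, h''⟩

theorem meets_down {N : Set P} {p q : P} (h : p ∈ meets N) (hq : q ≤ p) : q ∈ meets N :=
  fun r hr => h r (hr.trans hq)

theorem meets_of_dense {N : Set P} {p : P} (h : ∀ q ≤ p, ∃ r ≤ q, r ∈ meets N) :
    p ∈ meets N := by
  intro q hq
  obtain ⟨r, hr, h1⟩ := h q hq
  obtain ⟨s, hs, t, ht, hst⟩ := h1 r le_rfl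
  exact ⟨s, hs.trans hr, t, ht, hst⟩

theorem isFun_unique {X : Type v} {Y : Type w} {R : X → Y → Set P} {p q : P} (h : p ∈ IsFun R)
    (hq : q ≤ p) {x : X} {y y' : Y} (h1 : q ∈ meets (R x y)) (h2 : q ∈ meets (R x y')) :
    y = y' := by
  obtain ⟨r, _, hr⟩ := mem_fimp.1 (h.2 x y y') q hq ⟨h1, h2⟩
  exact hr

end Lang

section Read

variable {I Om : Type} [LinearOrder I] [WellFoundedLT I] [Nonempty I] [LC Om] [Countable Om]

/-- the name of a statement about the generic sequence -/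
def nm (f : Z I Om → Prop) : Set (Cond I Om) := {r | ∀ g ∈ body r, f g}

/-- below `q` the name `N` is read by `ξ` -/
def Reads (q : Cond I Om) (N : Set (Cond I Om)) (ξ : Z I Om → Prop) : Prop :=
  ∀ r ≤ q, (r ∈ meets N → ∃ r' ≤ r, ∀ g ∈ body r', ξ g) ∧ ((∀ g ∈ body r, ξ g) → r ∈ meets N)

theorem Reads.mono {q q' : Cond I Om} {N : Set (Cond I Om)} {ξ : Z I Om → Prop}
    (h : Reads q N ξ) (hq : q' ≤ q) : Reads q' N ξ := fun r hr => h r (hr.trans hq)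

theorem reads_nm (q : Cond I Om) (f : Z I Om → Prop) : Reads q (nm f) f := by
  refine fun r _ => ⟨fun h => ?_, fun h r' hr' => ⟨r', le_rfl, r, h, hr'⟩⟩
  obtain ⟨r', h1, s, h2, h3⟩ := h r le_rfl
  exact ⟨r', h1, fun g hg => h2 g (h3 hg)⟩

theorem exists_reads {T : Type} [Countable T] (p : Cond I Om) (x : T → Set (Cond I Om)) :
    ∃ q ≤ p, ∃ ξ : T → Z I Om → Prop, (∀ τ, MS univ (ξ τ)) ∧ ∀ τ, Reads q (x τ) (ξ τ) := by
  obtain ⟨q, hq, f, hf, h⟩ := exists_reading (V := Bool) p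
    (fun τ y => if y then meets (x τ) else fnot (meets (x τ))) (fun τ r _ => by
      by_cases h : ∃ r' ≤ r, r' ∈ meets (x τ)
      · obtain ⟨r', h1, h2⟩ := h
        exact ⟨r', h1, true, h2⟩
      · exact ⟨r, le_rfl, false, fun r' h1 h2 => h ⟨r', h1, h2⟩⟩)
  refine ⟨q, hq, fun τ g => f τ g = true, fun τ => hf τ true, fun τ r hr => ⟨fun h1 => ?_,
    fun h1 => meets_of_dense fun r' hr' => ?_⟩⟩
  · obtain ⟨r', h2, y, h3, s, h4, h5⟩ := h τ r hr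
    cases y
    · exact absurd (meets_down h1 h2) (h4 r' h5)
    · exact ⟨r', h2, h3⟩
  · obtain ⟨r'', h2, y, h3, s, h4, h5⟩ := h τ r' (hr'.trans hr)
    obtain ⟨g, hg⟩ := body_nonempty r''
    obtain rfl : true = y := (h1 g (hr' (h2 hg))).symm.trans (h3 g hg)
    exact ⟨r'', h2, meets_down h4 h5⟩

theorem exists_reads_fun {T V : Type} [Countable T] [Countable V] [Nonempty V] {p : Cond I Om}
    {R : T → V → Set (Cond I Om)} (hR : p ∈ IsFun R) :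
    ∃ q ≤ p, ∃ f : T → Z I Om → V, (∀ τ, MF univ (f τ)) ∧
      ∀ τ y, ∀ r ≤ q, r ∈ meets (R τ y) → ∃ r' ≤ r, ∀ g ∈ body r', f τ g = y := by
  obtain ⟨q, hq, f, hf, h⟩ := exists_reading p (fun τ y => meets (R τ y))
    fun τ r hr => mem_fex.1 (hR.1 τ) r hr
  refine ⟨q, hq, f, hf, fun τ y r hr h1 => ?_⟩
  obtain ⟨r', h2, y', h3, s, h4, h5⟩ := h τ r hr
  obtain rfl := isFun_unique hR (h2.trans (hr.trans hq)) (meets_down h1 h2) (meets_down h4 h5)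
  exact ⟨r', h2, h3⟩

theorem isFun_nm {T V : Type} [Countable V] {f : T → Z I Om → V} (hf : ∀ τ, MF univ (f τ))
    (p : Cond I Om) : p ∈ IsFun fun τ y => nm fun g => f τ g = y := by
  refine ⟨fun τ => mem_fex.2 fun q _ => ?_, fun τ y y' => mem_fimp.2 fun q _ h => ?_⟩
  · obtain ⟨r, h1, y, h2⟩ := decide_fun (hf τ) q
    exact ⟨r, h1, y, (reads_nm r _ r le_rfl).2 h2⟩
  · obtain ⟨r, h1, h2⟩ := (reads_nm q _ q le_rfl).1 h.1
    obtain ⟨r', h3, h4⟩ := (reads_nm r _ r le_rfl).1 (meets_down h.2 h1)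
    obtain ⟨g, hg⟩ := body_nonempty r'
    exact ⟨q, le_rfl, (h2 g (h3 hg)).symm.trans (h4 g hg)⟩

theorem fimp_of_reads {q : Cond I Om} {N N' : Set (Cond I Om)} {ξ ξ' : Z I Om → Prop}
    (h : Reads q N ξ) (h' : Reads q N' ξ') (h1 : ∀ g ∈ body q, ξ g → ξ' g) :
    q ∈ fimp (meets N) (meets N') := mem_fimp.2 fun r hr h2 => by
  obtain ⟨r', h3, h4⟩ := (h r hr).1 h2
  exact ⟨r', h3, (h' r' (h3.trans hr)).2 fun g hg => h1 g (hr (h3 hg)) (h4 g hg)⟩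

theorem not_fimp {q : Cond I Om} {N N' : Set (Cond I Om)} {ξ ξ' : Z I Om → Prop}
    (h : Reads q N ξ) (h' : Reads q N' ξ') (h1 : q ∈ fimp (meets N) (meets N'))
    (h2 : ∀ g ∈ body q, ξ g) : ∃ g ∈ body q, ξ' g := by
  obtain ⟨r, h3, h4⟩ := mem_fimp.1 h1 q le_rfl ((h q le_rfl).2 h2)
  obtain ⟨r', h5, h6⟩ := (h' r h3).1 h4
  obtain ⟨g, hg⟩ := body_nonempty r'
  exact ⟨g, h3 (h5 hg), h6 g hg⟩

theorem not_fiff {q : Cond I Om} {N N' : Set (Cond I Om)} {ξ ξ' : Z I Om → Prop}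
    (h : Reads q N ξ) (h' : Reads q N' ξ') (hξ : MS univ ξ) (h1 : q ∈ fiff (meets N) (meets N'))
    (h2 : ∀ g ∈ body q, ¬ (ξ g ↔ ξ' g)) : False := by
  obtain ⟨r, hr, h3 | h3⟩ := dec_all (B := {g | ξ g}) hξ q
  · obtain ⟨g, hg, h4⟩ := not_fimp (h.mono hr) (h'.mono hr) (fun s hs => h1.1 s (hs.trans hr)) h3
    exact h2 g (hr hg) (iff_of_true (h3 hg) h4)
  · obtain ⟨g, hg, h4⟩ := not_fimp (h'.mono hr) (h.mono hr) (fun s hs => h1.2 s (hs.trans hr))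
      fun g hg => by
        have := h2 g (hr hg)
        have h5 : ¬ ξ g := h3 hg
        tauto
    exact h3 hg h4

end Read

/-- The length of the iteration: the successor of the continuum. -/
abbrev KK : Type := (Order.succ 𝔠 : Cardinal.{0}).ord.ToType

theorem bdd_of_lt {c : Cardinal.{0}} (hc : c.IsRegular) {s : Set c.ord.ToType} (hs : #s < c) :
    ∃ β, ∀ γ ∈ s, γ < β := by
  rw [← not_isCofinal_iff]
  intro h
  have := Order.cof_le h
  rw [Ordinal.cof_toType, hc.cof_ord] at this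
  exact absurd hs (not_lt.2 this)

theorem KK_bdd {s : Set KK} (hs : #s ≤ 𝔠) : ∃ β, ∀ γ ∈ s, γ < β :=
  bdd_of_lt (isRegular_succ aleph0_le_continuum) (Order.lt_succ_iff.2 hs)

theorem KK_bdd' {s : Set KK} (hs : s.Countable) : ∃ β, s ⊆ Iio β :=
  KK_bdd ((le_aleph0_iff_set_countable.2 hs).trans aleph0_le_continuum)

instance : Nonempty KK := ⟨(KK_bdd' countable_empty).choose⟩

theorem KK_closure (N : KK → KK) (hN : ∀ β, β < N β) :
    ∃ α, ∀ s ⊆ Iio α, s.Countable → ∃ β, s ⊆ Iio β ∧ N β < α := by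
  classical
  let W := (ℵ₁ : Cardinal.{0}).ord.ToType
  have hW : ∀ s : Set W, s.Countable → ∃ β, ∀ γ ∈ s, γ < β := fun s hs =>
    bdd_of_lt isRegular_aleph_one
      ((le_aleph0_iff_set_countable.2 hs).trans_lt aleph0_lt_aleph_one)
  have hW1 : #W ≤ 𝔠 := by simpa [W] using aleph_one_le_continuum
  have hub : ∀ ξ : W, ∀ f : Iio ξ → KK, ∃ β, ∀ η, f η < β := by
    intro ξ f
    obtain ⟨β, hβ⟩ := KK_bdd (s := range f) (mk_range_le.trans ((mk_set_le _).trans hW1))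
    exact ⟨β, fun η => hβ _ ⟨η, rfl⟩⟩
  choose ub hub using hub
  let u : W → KK := (wellFounded_lt (α := W)).fix fun ξ u' => ub ξ fun η => N (u' η.1 η.2)
  have hu : ∀ η ξ : W, η < ξ → N (u η) < u ξ := by
    intro η ξ h
    have : u ξ = ub ξ fun η => N (u η.1) := by
      simp only [u]
      rw [WellFounded.fix_eq]
    rw [this]
    exact hub ξ (fun η => N (u η.1)) ⟨η, h⟩
  obtain ⟨α0, hα0⟩ := KK_bdd (s := range u) (mk_range_le.trans hW1)
  have hne : {γ | ∀ ξ, u ξ < γ}.Nonempty := ⟨α0, fun ξ => hα0 _ ⟨ξ, rfl⟩⟩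
  refine ⟨(wellFounded_lt (α := KK)).min _ hne, fun s hs hc => ?_⟩
  have h1 : ∀ γ : s, ∃ ξ, γ.1 ≤ u ξ := by
    intro γ
    by_contra h
    push Not at h
    exact WellFounded.not_lt_min (wellFounded_lt (α := KK)) {γ | ∀ ξ, u ξ < γ} h (hs γ.2)
  choose e he using h1
  have := hc.to_subtype
  obtain ⟨ξ, hξ⟩ := hW (range e) (countable_range e)
  obtain ⟨ξ', hξ'⟩ := hW {ξ} (countable_singleton ξ)
  refine ⟨u ξ, fun γ hγ => (he ⟨γ, hγ⟩).trans_lt ((hN _).trans (hu _ _ (hξ _ ⟨_, rfl⟩))),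
    (hu _ _ (hξ' ξ rfl)).trans ((wellFounded_lt (α := KK)).min_mem _ hne ξ')⟩

theorem MS.bdd {ι : Type} [Countable ι] {a : Set KK} {s : ι → Z KK O → Prop}
    (h : ∀ i, MS a (s i)) : ∃ c, c ⊆ a ∧ c.Countable ∧ ∀ i, MS c (s i) := by
  choose c h1 h2 h3 using fun i => (h i).countable_dep
  exact ⟨⋃ n, c n, iUnion_subset h1, countable_iUnion h2,
      fun v => (h3 v).mono (subset_iUnion c v)⟩

theorem card_over {ι : Type} [Countable ι] (β : KK) :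
    #{x : ι → Set (Z KK O) | ∀ i, MS (Iio β) (· ∈ x i)} ≤ 𝔠 := by
  have h1 := card_MS_le (Om := O) (a := Iio β) (Order.lt_succ_iff.1 (by simpa using mk_Iio_lt β (by simp)))
  refine (mk_le_of_injective (f := fun x i => (⟨x.1 i, x.2 i⟩ :
    {s : Set (Z KK O) | MS (Iio β) (· ∈ s)})) fun x y h => ?_).trans ?_
  · exact Subtype.ext (funext fun i => congrArg Subtype.val (congrFun h i))
  · rw [← power_def]
    calc _ ≤ 𝔠 ^ #ι := power_le_power_right h1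
      _ ≤ 𝔠 ^ ℵ₀ := power_le_power_left continuum_ne_zero mk_le_aleph0
      _ = 𝔠 := continuum_power_aleph0

theorem forcedA (p : Cond KK O) : p ∈ ForcedA (Cond KK O) := by
  intro E x
  refine mem_fimp.2 fun q _ hH => ?_
  by_contra hc
  push Not at hc
  obtain ⟨q1, hq1, h1⟩ : ∃ q1 ≤ q, ∀ y : ℕ → ℕ → Set (Cond KK O), ∀ r ≤ q1, ∃ e, ∃ r' ≤ r,
      ∀ r'' ≤ r', ∀ m, r'' ∉ fall fun j => fiff (meets (x e j)) (meets (y m j)) := by
    have h1 := hc q le_rfl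
    rw [mem_fex] at h1
    push Not at h1
    obtain ⟨q1, h2, h3⟩ := h1
    refine ⟨q1, h2, fun y r hr => ?_⟩
    have h4 := h3 r hr y
    obtain ⟨e, he⟩ := not_forall.1 h4
    rw [mem_fex] at he
    push Not at he
    exact ⟨e, he⟩
  have hW : ∀ z : Option (ℕ × ℕ) → Set (Z KK O), ∃ β, (∀ i, MS univ (· ∈ z i)) →
      (∃ r ≤ q1, body r = z none) → ∃ (r' : Cond KK O) (e : E) (ξ : ℕ → Z KK O → Prop),
        body r' ⊆ z none ∧ MS (Iio β) (· ∈ body r') ∧ (∀ i, MS (Iio β) (ξ i)) ∧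
        (∀ i, Reads r' (x e i) (ξ i)) ∧ ∀ g ∈ body r', ∀ m, ∃ i, ¬ (ξ i g ↔ g ∈ z (some (m, i))) := by
    intro z
    by_cases h : (∀ i, MS univ (· ∈ z i)) ∧ ∃ r ≤ q1, body r = z none
    swap
    · exact ⟨Classical.arbitrary _, fun h1 h2 => absurd ⟨h1, h2⟩ h⟩
    obtain ⟨hz, r, hr, hr'⟩ := h
    obtain ⟨e, r1, h2, h3⟩ := h1 (fun m j => nm (· ∈ z (some (m, j)))) r hr
    obtain ⟨r2, h4, ξ, h5, h6⟩ := exists_reads r1 (x e)
    rcases avoid (B := fun m g => ∀ i, ξ i g ↔ g ∈ z (some (m, i)))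
      (fun m => MS.all fun i => (h5 i).iff (hz _)) r2 with ⟨r3, h7, m, h8⟩ | ⟨r3, h7, h8⟩
    · exact absurd (fun j => ⟨fimp_of_reads ((h6 j).mono h7) (reads_nm _ _) fun g hg => (h8 g hg j).1,
        fimp_of_reads (reads_nm _ _) ((h6 j).mono h7) fun g hg => (h8 g hg j).2⟩)
        (h3 r3 (h7.trans h4) m)
    · obtain ⟨c, -, hc1, hc2⟩ := MS.bdd h5
      obtain ⟨c', -, hc3, hc4⟩ := (ms_body r3).countable_dep
      obtain ⟨β, hβ⟩ := KK_bdd' (hc1.union hc3)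
      exact ⟨β, fun _ _ => ⟨r3, e, ξ, hr' ▸ (h7.trans (h4.trans h2) : r3 ≤ r),
        hc4.mono (subset_union_right.trans hβ), fun i => (hc2 i).mono (subset_union_left.trans hβ),
        fun i => (h6 i).mono h7, fun g hg m => not_forall.1 (h8 m g hg)⟩⟩
  choose T hT using hW
  obtain ⟨c0, -, hc0, hc0'⟩ := (ms_body q1).countable_dep
  obtain ⟨β0, hβ0⟩ := KK_bdd' hc0
  have hN : ∀ β : KK, ∃ γ, β < γ ∧ β0 < γ ∧
      ∀ z : Option (ℕ × ℕ) → Set (Z KK O), (∀ i, MS (Iio β) (· ∈ z i)) → T z < γ := by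
    intro β
    obtain ⟨γ, hγ⟩ := KK_bdd (mk_image_le.trans (card_over β) :
      #(T '' {z | ∀ i, MS (Iio β) (· ∈ z i)}) ≤ 𝔠)
    obtain ⟨δ, hδ⟩ := KK_bdd' (s := {β, β0, γ}) (toFinite _).countable
    exact ⟨δ, hδ (by simp), hδ (by simp), fun z hz =>
      (hγ _ ⟨z, hz, rfl⟩).trans (hδ (by simp))⟩
  choose N hN1 hN2 hN3 using hN
  obtain ⟨α, hα⟩ := KK_closure N hN1
  have hl := isLowerSet_Iio α
  have hq1α : MS (Iio α) (· ∈ body q1) := by
    obtain ⟨β, -, h2⟩ := hα ∅ (empty_subset _) countable_empty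
    exact hc0'.mono (hβ0.trans (Iio_subset_Iio ((hN2 β).trans h2).le))
  have hn : ∀ k, MF univ fun g : Z KK O => nn (res (g α) ((k + 1) * (k + 1))) :=
    fun k => (MF.res (mem_univ α) _).map nn
  obtain ⟨r0, hr0, h2⟩ := mem_fimp.1
    (hH fun k c => nm fun g => nn (res (g α) ((k + 1) * (k + 1))) = c) q1 hq1 (isFun_nm hn q1)
  obtain ⟨r1, hr1, s, h3⟩ := mem_fex.1 h2 r0 le_rfl
  obtain ⟨r2, hr2, σ, h4, h5⟩ := exists_reads r1 fun τ : ℕ × ℕ => s τ.1 τ.2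
  obtain ⟨p', hp', k0, f, hf, h6⟩ := main_avoid α r2 (s := fun k i => σ (k, i)) fun k i => h4 _
  let z : Option (ℕ × ℕ) → Set (Z KK O) := fun o => o.elim (part (Iio α) p') fun τ =>
    {g | f τ.1 τ.2 g}
  have hz : ∀ i, MS (Iio α) (· ∈ z i) := fun i => match i with
    | none => ms_low hl p'
    | some τ => hf τ.1 τ.2
  obtain ⟨c, h7, h8, h9⟩ := MS.bdd hz
  obtain ⟨β, h10, h11⟩ := hα c h7 h8
  have h12 : Iio (T z) ⊆ Iio α :=
    Iio_subset_Iio ((hN3 β z fun i => (h9 i).mono h10).trans h11).le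
  obtain ⟨r', e, ξ, k1, k2, k3, k4, k5⟩ := hT z (fun i => (hz i).mono (subset_univ _))
    ⟨glue (Iio α) p' Cond.top, by
      rw [le_iff, body_restrict]
      exact (low_mono hl (hp'.trans (hr2.trans (hr1.trans hr0)))).trans
        (low_of_body hl hq1α fun _ h => h), body_restrict _ _⟩
  have k6 : part (Iio α) r' ⊆ body r' := low_of_body hl (k2.mono h12) fun _ h => h
  obtain ⟨q2, k7, k8, k9⟩ := h6 r' ξ (k6.trans k1) (fun i => (k3 i).mono h12)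
    fun g hg => k5 g (k6 hg)
  have k10 : q2 ≤ r' := ((body_subset _ _).trans k8).trans k6
  have k11 : q2 ≤ r2 := k7.trans hp'
  obtain ⟨q3, k12, k, k13, k14⟩ := mem_fex.1 (h3 e k0) q2 (k11.trans hr2)
  obtain ⟨q4, k15, ⟨n, j⟩, k16⟩ := cover (ι := ℕ × ℕ)
    (B := fun τ g => nn (res (g α) ((k + 1) * (k + 1))) = τ.1 ∧ τ.2 < τ.1 ∧
      ¬ (σ (k, τ.2) g ↔ ξ τ.2 g))
    (fun τ => (hn k _).and ((MS.const _).and ((h4 _).iff ((k3 _).mono (subset_univ _))).not)) q3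
    (fun g hg => by
      obtain ⟨i, h1, h2⟩ := k9 g (k12 hg) k k13
      exact ⟨(_, i), rfl, h1, h2⟩)
  obtain ⟨g0, hg0⟩ := body_nonempty q4
  obtain ⟨q5, k17, k18⟩ := mem_fimp.1 (k14 j n) q4 k15
    ⟨(reads_nm q4 _ q4 le_rfl).2 fun g hg => (k16 g hg).1, (k16 g0 hg0).2.1⟩
  have k19 : q5 ≤ q2 := k17.trans (k15.trans k12)
  exact not_fiff ((h5 (k, j)).mono (k19.trans k11)) ((k4 j).mono (k19.trans k10)) (h4 _) k18
    fun g hg => (k16 g (k17 hg)).2.2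

/-- the names of the generic sequences -/
def gen (β : KK) (n : ℕ) (w : ℕ × Finset ℕ) : Set (Cond KK O) := nm fun g => (g β n).1 = w

theorem forcedB (p : Cond KK O) : p ∈ ForcedB bb gen := by
  classical
  have h0 : ∀ β, p ∈ IsFun (gen β) := fun β => by
    have := isFun_nm (T := ℕ) (V := ℕ × Finset ℕ) (f := fun (n : ℕ) (g : Z KK O) => (g β n).1)
      (fun n => (MF.coord (mem_univ β) n).map Subtype.val) p
    unfold gen
    exact this
  refine ⟨h0, fun β n w => mem_fimp.2 fun q _ h => ?_, fun f y => mem_fimp.2 fun q _ h => ?_⟩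
  · obtain ⟨r, -, h1⟩ := (reads_nm q _ q le_rfl).1 h
    obtain ⟨g, hg⟩ := body_nonempty r
    obtain rfl := h1 g hg
    exact ⟨q, le_rfl, (Nat.mul_le_mul_left _ (g β n).2.2).trans (Nat.le_succ _)⟩
  obtain ⟨⟨hf, hy⟩, hb⟩ := h
  obtain ⟨q1, hq1, φ, hφ, hφ'⟩ := exists_reads_fun hf
  obtain ⟨q2, hq2, ψ, hψ, hψ'⟩ := exists_reads_fun (p := q1)
    ⟨fun x r hr => hy.1 x r (hr.trans hq1), fun x a b r hr => hy.2 x a b r (hr.trans hq1)⟩
  obtain ⟨c, -, hc1, hc2⟩ := MS.bdd (s := fun τ : ℕ × ℕ => fun g => φ τ.1 g = τ.2)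
    fun τ => hφ τ.1 τ.2
  obtain ⟨c', -, hc3, hc4⟩ := MS.bdd (s := fun τ : ℕ × ℕ => fun g => ψ τ.1 g = τ.2)
    fun τ => hψ τ.1 τ.2
  obtain ⟨γ, hγ⟩ := KK_bdd' (hc1.union hc3)
  refine ⟨q2, hq2.trans hq1, mem_fex.2 fun r hr => ⟨r, le_rfl, γ, fun β =>
    mem_fimp.2 fun r1 hr1 (hβ : γ ≤ β) => ?_⟩⟩
  have hφβ : ∀ n, MF (Iio β) (φ n) := fun n v =>
    (hc2 (n, v)).mono (subset_union_left.trans (hγ.trans (Iio_subset_Iio hβ)))
  have hψβ : ∀ n, MF (Iio β) (ψ n) := fun n v =>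
    (hc4 (n, v)).mono (subset_union_right.trans (hγ.trans (Iio_subset_Iio hβ)))
  let ψ' : Z KK O → ℕ → ℕ := fun g i => if ψ i g < bb i then ψ i g else 0
  have hψ1 : ∀ g i, ψ' g i < bb i := fun g i => by
    simp only [ψ']
    split_ifs with h
    exacts [h, bb_pos i]
  obtain ⟨r2, hr2, t, -, h1, h2⟩ := exists_node β r1 0
  obtain ⟨r3, -, -, -, -, h3⟩ := exists_three β r2 r2
    (T := fun g => (r2.tr β g).shrink (r2.tr β g).stem fun t =>
      {w | φ t.length g < lev w ∧ ψ' g (lev w) ∈ w.1.2})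
    ((r2.meas β).shrink (r2.meas β).1 fun t w => ((hφβ _).pred (· < lev w)).and
      ((hψβ (lev w)).pred fun v => (if v < bb (lev w) then v else 0) ∈ w.1.2))
  have hr3 : r3 ≤ r2 := fun g hg => by
    obtain ⟨h8, h9, h10⟩ := (h3 g).1 hg
    exact (mem_body_three β).2 ⟨h8, Tr.shrink_br (Tr.node_stem _) _ h9, h10⟩
  refine ⟨r3, hr3.trans hr2, mem_fex.2 fun r4 hr4 => ⟨r4, le_rfl, t.length, fun n w c v =>
    mem_fimp.2 fun r5 hr5 h => ⟨r5, le_rfl, ?_⟩⟩⟩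
  obtain ⟨hn, h4, h5, h6⟩ := h
  have h7 : r5 ≤ q2 := hr5.trans (hr4.trans (hr3.trans (hr2.trans (hr1.trans hr))))
  obtain ⟨-, -, (hv : v < bb w.1)⟩ := mem_fimp.1 (hb w.1 v) r5 (h7.trans (hq2.trans hq1)) h6
  obtain ⟨s1, k1, k2⟩ := (reads_nm r5 _ r5 le_rfl).1 h4
  obtain ⟨s2, k3, k4⟩ := hφ' n c s1 (k1.trans (h7.trans hq2)) (meets_down h5 k1)
  obtain ⟨s3, k5, k6⟩ := hψ' w.1 v s2 (k3.trans (k1.trans h7)) (meets_down h6 (k3.trans k1))
  obtain ⟨g, hg⟩ := body_nonempty s3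
  obtain rfl := k2 g (k3 (k5 hg))
  obtain rfl := k4 g (k5 hg)
  obtain rfl := k6 g hg
  obtain ⟨-, h9, -⟩ := (h3 g).1 (hr4 (hr5 (k1 (k3 (k5 hg)))))
  have h10 := Tr.mem_of_shrink (h9.2 n (by
    change (r2.tr β g).stem.length ≤ n
    rw [h1]
    exact hn)) (LC.mono (fun w hw => ⟨hw.1.1, hw.1.2, hw.2⟩)
      (pos_catch (pos_high ((r2.tr β g).pos (res (g β) n)) (φ (res (g β) n).length g)) (hψ1 g)))
  obtain ⟨h11, h12⟩ := h10
  rw [res_length] at h11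
  refine ⟨h11.le, ?_⟩
  simp only [ψ', lev, hv, if_true] at h12
  exact h12

end Pool.Agent.H589Z.CS
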