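import Pool.Agent.H589Z.CS.Tree

/-!
# Measurability with respect to sets of coordinates
-/

set_option autoImplicit false
set_option linter.unusedSectionVars false

namespace Pool.Agent.H589Z.CS

open Set PiNat MeasureTheory

/-- The space of sequences of generic objects. -/
abbrev Z (I Om : Type) : Type := I → ℕ → Om

variable {I Om : Type}

/-- The sigma algebra generated by the coordinates in `a`. -/
@[reducible] def Fs (Om : Type) (a : Set I) : MeasurableSpace (Z I Om) :=
  MeasurableSpace.generateFrom {s | ∃ β ∈ a, ∃ n w, s = {g : Z I Om | g β n = w}}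

/-- Measurable predicates. -/
def MS (a : Set I) (s : Z I Om → Prop) : Prop := MeasurableSet[Fs Om a] {g | s g}

/-- Measurable functions with values in a countable discrete set. -/
def MF {V : Type} (a : Set I) (f : Z I Om → V) : Prop := ∀ v, MS a fun g => f g = v

/-- Agreement on a set of coordinates. -/
def Agree (a : Set I) (g g' : Z I Om) : Prop := ∀ γ ∈ a, g γ = g' γ

theorem Agree.symm {a : Set I} {g g' : Z I Om} (h : Agree a g g') : Agree a g' g :=
  fun γ hγ => (h γ hγ).symm

theorem Agree.mono {a b : Set I} {g g' : Z I Om} (h : Agree a g g') (hb : b ⊆ a) : Agree b g g' :=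
  fun γ hγ => h γ (hb hγ)

theorem Agree.trans {a : Set I} {g g' g'' : Z I Om} (h : Agree a g g') (h' : Agree a g' g'') :
    Agree a g g'' := fun γ hγ => (h γ hγ).trans (h' γ hγ)

namespace MS

variable {a : Set I} {s s' : Z I Om → Prop}

theorem const (h : Prop) : MS (Om := Om) a fun _ => h := by
  unfold MS
  by_cases hh : h <;> simp [hh]

theorem and (h : MS a s) (h' : MS a s') : MS a fun g => s g ∧ s' g := MeasurableSet.inter h h'

theorem or (h : MS a s) (h' : MS a s') : MS a fun g => s g ∨ s' g := MeasurableSet.union h h'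

theorem not (h : MS a s) : MS a fun g => ¬ s g := MeasurableSet.compl h

theorem congr (h : MS a s) (h' : ∀ g, s g ↔ s' g) : MS a s' := by
  have : s = s' := funext fun g => propext (h' g)
  exact this ▸ h

theorem imp (h : MS a s) (h' : MS a s') : MS a fun g => s g → s' g :=
  (h.not.or h').congr fun g => by tauto

theorem iff (h : MS a s) (h' : MS a s') : MS a fun g => s g ↔ s' g :=
  ((h.imp h').and (h'.imp h)).congr fun g => by tauto

theorem ex {ι : Sort*} [Countable ι] {s : ι → Z I Om → Prop} (h : ∀ i, MS a (s i)) :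
    MS a fun g => ∃ i, s i g := by
  have := MeasurableSet.iUnion (m := Fs Om a) h
  unfold MS
  rwa [ofPred_exists]

theorem all {ι : Sort*} [Countable ι] {s : ι → Z I Om → Prop} (h : ∀ i, MS a (s i)) :
    MS a fun g => ∀ i, s i g :=
  (ex fun i => (h i).not).not.congr fun g => by simp

theorem mono {b : Set I} (h : MS a s) (hb : a ⊆ b) : MS b s := by
  refine MeasurableSpace.generateFrom_mono ?_ _ h
  rintro _ ⟨β, hβ, n, w, rfl⟩
  exact ⟨β, hb hβ, n, w, rfl⟩

theorem coord {β : I} (hβ : β ∈ a) (n : ℕ) (w : Om) : MS a fun g : Z I Om => g β n = w :=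
  MeasurableSpace.measurableSet_generateFrom ⟨β, hβ, n, w, rfl⟩

theorem comp {V : Type} [Countable V] {f : Z I Om → V} (hf : MF a f) {φ : V → Z I Om → Prop}
    (h : ∀ v, MS a (φ v)) : MS a fun g => φ (f g) g :=
  (ex fun v => (hf v).and (h v)).congr fun g => by simp

theorem induction {P : Set (Z I Om) → Prop}
    (h0 : ∀ β ∈ a, ∀ n w, P {g | g β n = w}) (h1 : P ∅)
    (h2 : ∀ t, MS a (· ∈ t) → P t → P tᶜ)
    (h3 : ∀ t : ℕ → Set (Z I Om), (∀ n, MS a (· ∈ t n)) → (∀ n, P (t n)) → P (⋃ n, t n))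
    (h : MS a s) : P {g | s g} := by
  refine MeasurableSpace.generateFrom_induction _ (fun t _ => P t) ?_ h1 h2 h3 _ h
  rintro _ ⟨β, hβ, n, w, rfl⟩ _
  exact h0 β hβ n w

theorem inv (h : MS a s) {g g' : Z I Om} (hg : Agree a g g') : s g ↔ s g' := by
  refine h.induction (P := fun t => g ∈ t ↔ g' ∈ t) ?_ (by simp) ?_ ?_
  · intro β hβ n w
    simp only [mem_ofPred_eq, hg β hβ]
  · intro t _ ht
    simp [ht]
  · intro t _ ht
    simp [ht]

theorem countable_dep (h : MS a s) : ∃ c, c ⊆ a ∧ c.Countable ∧ MS c s := by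
  refine h.induction (P := fun t => ∃ c, c ⊆ a ∧ c.Countable ∧ MS c (· ∈ t)) ?_ ?_ ?_ ?_
  · intro β hβ n w
    exact ⟨{β}, by simpa using hβ, countable_singleton _, coord (mem_singleton β) n w⟩
  · exact ⟨∅, empty_subset _, countable_empty, const False⟩
  · rintro t _ ⟨c, h1, h2, h3⟩
    exact ⟨c, h1, h2, h3.not⟩
  · intro t _ ht
    choose c h1 h2 h3 using ht
    exact ⟨⋃ n, c n, iUnion_subset h1, countable_iUnion h2,
      (ex fun n => (h3 n).mono (subset_iUnion c n)).congr fun g => by simp⟩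

end MS

namespace MF

variable {a : Set I} {V V' : Type} {f : Z I Om → V}

theorem const (v : V) : MF (Om := Om) a fun _ => v := fun _ => MS.const _

theorem mono {b : Set I} (h : MF a f) (hb : a ⊆ b) : MF b f := fun v => (h v).mono hb

theorem comp [Countable V] (hf : MF a f) {φ : V → Z I Om → V'} (h : ∀ v, MF a (φ v)) :
    MF a fun g => φ (f g) g := fun v' => MS.comp hf (φ := fun v g => φ v g = v') fun v => h v v'

theorem map [Countable V] (hf : MF a f) (φ : V → V') : MF a fun g => φ (f g) :=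
  hf.comp (φ := fun v _ => φ v) fun _ => const _

theorem pred [Countable V] (hf : MF a f) (φ : V → Prop) : MS a fun g => φ (f g) :=
  MS.comp hf (φ := fun v _ => φ v) fun _ => MS.const _

theorem inv (h : MF a f) {g g' : Z I Om} (hg : Agree a g g') : f g = f g' :=
  (((h (f g')).inv hg).2 rfl)

theorem coord {β : I} (hβ : β ∈ a) (n : ℕ) : MF a fun g : Z I Om => g β n :=
  fun w => MS.coord hβ n w

theorem res [Countable Om] {β : I} (hβ : β ∈ a) (n : ℕ) :
    MF a fun g : Z I Om => res (g β) n := by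
  induction n with
  | zero => exact const _
  | succ k ih =>
    exact (coord hβ k).comp (φ := fun w g => w :: PiNat.res (g β) k) fun w => ih.map _

theorem finset [Countable V] {f : Z I Om → Finset V} (h : ∀ z, MS a fun g => z ∈ f g) :
    MF a f := fun v =>
  (MS.all fun z => (h z).iff (MS.const (z ∈ v))).congr fun g => by rw [Finset.ext_iff]

theorem countable_dep [Countable V] (h : MF a f) : ∃ c, c ⊆ a ∧ c.Countable ∧ MF c f := by
  choose c h1 h2 h3 using fun v => (h v).countable_dep
  exact ⟨⋃ n, c n, iUnion_subset h1, countable_iUnion h2,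
      fun v => (h3 v).mono (subset_iUnion c v)⟩

end MF

/-- Measurable selection of a witness from a countable set. -/
theorem exists_sel {a : Set I} {V : Type} [Countable V] [Nonempty V] {φ : V → Z I Om → Prop}
    (h : ∀ v, MS a (φ v)) : ∃ f : Z I Om → V, MF a f ∧ ∀ g, (∃ v, φ v g) → φ (f g) g := by
  classical
  obtain ⟨e, he⟩ := exists_surjective_nat V
  let ψ : ℕ → Z I Om → Prop := fun n g => φ (e n) g ∨ ¬ ∃ v, φ v g
  have hψ : ∀ n, MS a (ψ n) := fun n => (h _).or (MS.ex h).not
  have hex : ∀ g, ∃ n, ψ n g := by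
    intro g
    by_cases hg : ∃ v, φ v g
    · obtain ⟨v, hv⟩ := hg
      obtain ⟨n, rfl⟩ := he v
      exact ⟨n, Or.inl hv⟩
    · exact ⟨0, Or.inr hg⟩
  have hN : MF a fun g => Nat.find (hex g) := by
    intro n
    refine ((hψ n).and (MS.all fun m => (MS.const (m < n)).imp (hψ m).not)).congr fun g => ?_
    rw [Nat.find_eq_iff]
  refine ⟨fun g => e (Nat.find (hex g)), hN.map e, fun g hg => ?_⟩
  exact (Nat.find_spec (hex g)).resolve_right (not_not.2 hg)

open Cardinal in
theorem card_MS_le [Countable Om] {a : Set I} (ha : #a ≤ 𝔠) :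
    #{s : Set (Z I Om) | MS a (· ∈ s)} ≤ 𝔠 := by
  apply MeasurableSpace.cardinal_measurableSet_le_continuum
  have : {s | ∃ β ∈ a, ∃ n w, s = {g : Z I Om | g β n = w}} =
      range fun x : a × ℕ × Om => {g : Z I Om | g x.1 x.2.1 = x.2.2} := by
    ext s
    constructor
    · rintro ⟨β, hβ, n, w, rfl⟩
      exact ⟨⟨⟨β, hβ⟩, n, w⟩, rfl⟩
    · rintro ⟨⟨⟨β, hβ⟩, n, w⟩, rfl⟩
      exact ⟨β, hβ, n, w, rfl⟩
  rw [this]
  refine mk_range_le.trans ?_
  rw [mk_prod, lift_id, lift_id]
  calc _ ≤ 𝔠 * 𝔠 := mul_le_mul' ha (mk_le_aleph0.trans aleph0_le_continuum)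
    _ = 𝔠 := continuum_mul_self

variable [LC Om] [Countable Om]

theorem MS.pos {a : Set I} {A : Z I Om → Set Om} (h : ∀ w, MS a fun g => w ∈ A g) :
    MS a fun g => Pos (A g) := LC.meas _ A h

/-- Measurable tree valued functions. -/
def MT (a : Set I) (T : Z I Om → Tr Om) : Prop :=
  MF a (fun g => (T g).stem) ∧ ∀ t w, MS a fun g => w ∈ (T g).succ t

namespace MT

variable {a : Set I} {T : Z I Om → Tr Om}

theorem const (T : Tr Om) : MT a fun _ : Z I Om => T := ⟨MF.const _, fun _ _ => MS.const _⟩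

theorem mono {b : Set I} (h : MT a T) (hb : a ⊆ b) : MT b T :=
  ⟨h.1.mono hb, fun t w => (h.2 t w).mono hb⟩

theorem inv (h : MT a T) {g g' : Z I Om} (hg : Agree a g g') : T g = T g' :=
  Tr.ext (h.1.inv hg) (funext fun t => Set.ext fun w => (h.2 t w).inv hg)

theorem comp {V : Type} [Countable V] {f : Z I Om → V} (hf : MF a f) {T : V → Z I Om → Tr Om}
    (h : ∀ v, MT a (T v)) : MT a fun g => T (f g) g :=
  ⟨hf.comp (φ := fun v g => (T v g).stem) fun v => (h v).1,
    fun t w => MS.comp hf (φ := fun v g => w ∈ (T v g).succ t) fun v => (h v).2 t w⟩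

theorem node (h : MT a T) (t : List Om) : MS a fun g => (T g).Node t :=
  (h.1.pred (· <:+ t)).and (MS.all fun w => MS.all fun u => (MS.const _).imp
    ((h.1.pred fun s => s.length ≤ u.length).imp (h.2 u w)))

theorem br (h : MT a T) {β : I} (hβ : β ∈ a) : MS a fun g => g β ∈ (T g).br := by
  refine MS.and ?_ (MS.all fun n => (h.1.pred fun s => s.length ≤ n).imp ?_)
  · exact MS.comp h.1 (φ := fun s g => res (g β) s.length = s) fun s => MF.res hβ _ s
  · exact MS.comp (MF.coord hβ n) (φ := fun w g => w ∈ (T g).succ (res (g β) n)) fun w =>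
      MS.comp (MF.res hβ n) (φ := fun t g => w ∈ (T g).succ t) fun t => h.2 t w

theorem cone (h : MT a T) (t : List Om) : MT a fun g => (T g).cone t := ⟨MF.const _, h.2⟩

theorem shrink (h : MT a T) {s : Z I Om → List Om} (hs : MF a s) {A : Z I Om → List Om → Set Om}
    (hA : ∀ t w, MS a fun g => w ∈ A g t) : MT a fun g => (T g).shrink (s g) (A g) := by
  refine ⟨hs, fun t w => ?_⟩
  have h1 : MS a fun g => Pos {w | w ∈ (T g).succ t ∧ w ∈ A g t} :=
    MS.pos fun w => (h.2 t w).and (hA t w)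
  refine ((h.2 t w).and (h1.imp (hA t w))).congr fun g => ?_
  simp only [Tr.shrink]
  split_ifs with h2
  · exact ⟨fun h3 => ⟨h3.1, h3.2 h2⟩, fun h3 => ⟨h3.1, fun _ => h3.2⟩⟩
  · exact ⟨fun h3 => h3.1, fun h3 => ⟨h3, fun h4 => absurd h4 h2⟩⟩

end MT

end Pool.Agent.H589Z.CS
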