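import Pool.Agent.H589Z.CS.AxA

/-!
# The coideal of slalom creatures
-/

set_option autoImplicit false
set_option linter.unusedSectionVars false

namespace Pool.Agent.H589Z.CS

open Set PiNat MeasureTheory

/-- number of colours -/
@[irreducible] def QQ (i : ℕ) : ℕ := 2 ^ 2 ^ i
/-- bigness -/
def BB (i : ℕ) : ℕ := QQ i ^ (i + 1)
/-- size of the slaloms -/
def hh (i : ℕ) : ℕ := BB i ^ i
/-- size of the levels -/
def bb (i : ℕ) : ℕ := 4 ^ i * hh i + 1

theorem QQ_eq (i : ℕ) : QQ i = 2 ^ 2 ^ i := by unfold QQ; rfl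

theorem two_le_QQ (i : ℕ) : 2 ≤ QQ i := by
  rw [QQ_eq]
  exact Nat.le_self_pow (by positivity) 2

theorem QQ_mono {i j : ℕ} (h : i ≤ j) : QQ i ≤ QQ j := by
  rw [QQ_eq, QQ_eq]
  exact Nat.pow_le_pow_right (by norm_num) (Nat.pow_le_pow_right (by norm_num) h)

theorem two_le_BB (i : ℕ) : 2 ≤ BB i :=
  (two_le_QQ i).trans (Nat.le_self_pow (Nat.succ_ne_zero _) _)

theorem hh_lt_bb (i : ℕ) : hh i < bb i :=
  Nat.lt_succ_of_le (Nat.le_mul_of_pos_left _ (by positivity))

theorem bb_pos (i : ℕ) : 0 < bb i := Nat.succ_pos _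

/-- The values of the generic sequences. -/
abbrev O : Type := {w : ℕ × Finset ℕ // w.2 ⊆ Finset.range (bb w.1) ∧ w.2.card ≤ hh w.1}

/-- the level -/
def lev (w : O) : ℕ := w.1.1

/-- every small subset of level `i` is contained in a member of `A` -/
def cov (A : Set O) (i n : ℕ) : Prop :=
  ∀ F : Finset ℕ, F ⊆ Finset.range (bb i) → F.card ≤ n → ∃ w ∈ A, lev w = i ∧ F ⊆ w.1.2

theorem cov.mono {A A' : Set O} {i n n' : ℕ} (h : cov A i n) (hn : n' ≤ n)
    (hA : ∀ w ∈ A, lev w = i → w ∈ A') : cov A' i n' := by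
  intro F h1 h2
  obtain ⟨w, h3, h4, h5⟩ := h F h1 (h2.trans hn)
  exact ⟨w, hA w h3 h4, h4, h5⟩

theorem cov.colour {V : Type} {A : Set O} {i n : ℕ} (W : Finset V) (v : O → V)
    (hv : ∀ w ∈ A, v w ∈ W) (h : cov A i (W.card * n)) :
    ∃ c ∈ W, cov {w | w ∈ A ∧ v w = c} i n := by
  classical
  by_contra hc
  simp only [cov, not_exists, not_and, not_forall] at hc
  choose! F h1 h2 h3 using hc
  obtain ⟨w, h4, h5, h6⟩ := h (W.biUnion F) (Finset.biUnion_subset.2 h1)
    (Finset.card_biUnion_le_card_mul _ _ _ h2)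
  exact h3 _ (hv w h4) w ⟨h4, rfl⟩ h5 ((Finset.subset_biUnion_of_mem F (hv w h4)).trans h6)

theorem cov.le {A : Set O} {i n : ℕ} (h : cov A i n) : n ≤ hh i := by
  by_contra hn
  obtain ⟨w, -, rfl, h2⟩ := h (Finset.range (hh i + 1))
    (Finset.range_subset_range.2 (hh_lt_bb i)) (by simp; omega)
  have := (Finset.card_le_card h2).trans w.2.2
  simp [lev] at this

theorem ms_cov {I : Type} {a : Set I} {A : Z I O → Set O} (h : ∀ w, MS a fun g => w ∈ A g)
    (i n : ℕ) : MS a fun g => cov (A g) i n :=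
  MS.all fun _ => (MS.const _).imp ((MS.const _).imp (MS.ex fun w => (h w).and (MS.const _)))

instance : LC O where
  Pos A := ∀ m, ∃ i, cov A i (BB i ^ m)
  univ m := ⟨m, fun F h1 h2 => ⟨⟨(m, F), h1, h2⟩, mem_univ _, rfl, Finset.Subset.refl _⟩⟩
  mono h h' m := (h' m).imp fun _ hi => hi.mono le_rfl fun _ hw _ => h hw
  union {A B} h := by
    classical
    by_contra hc
    simp only [not_or, not_forall, not_exists] at hc
    obtain ⟨⟨m, hm⟩, ⟨m', hm'⟩⟩ := hc
    obtain ⟨i, hi⟩ := h (max m m' + 1)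
    have hB := two_le_BB i
    obtain ⟨c, -, hc⟩ := cov.colour (A := A ∪ B) (i := i) (n := BB i ^ max m m') Finset.univ
      (fun w => decide (w ∈ A)) (fun _ _ => Finset.mem_univ _)
      (hi.mono (by rw [pow_succ, mul_comm]; exact Nat.mul_le_mul_left _ (by simpa using hB))
        fun _ h _ => h)
    cases c
    · exact hm' i (hc.mono (Nat.pow_le_pow_right (by omega) (le_max_right _ _))
        fun w hw _ => hw.1.resolve_left (by simpa using hw.2))
    · exact hm i (hc.mono (Nat.pow_le_pow_right (by omega) (le_max_left _ _))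
        fun w hw _ => by simpa using hw.2)
  ne h := by
    obtain ⟨i, hi⟩ := h 0
    obtain ⟨w, hw, -⟩ := hi ∅ (by simp) (by simp)
    exact ⟨w, hw⟩
  meas {Z} m A h := by
    simp only [cov, ofPred_forall, ofPred_exists, ofPred_and]
    refine MeasurableSet.iInter fun m => MeasurableSet.iUnion fun i =>
      MeasurableSet.iInter fun F => MeasurableSet.iInter fun _ => MeasurableSet.iInter fun _ =>
      MeasurableSet.iUnion fun w => (h w).inter (MeasurableSet.inter ?_ ?_) <;>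
    exact MeasurableSet.const _

theorem pos_iff {A : Set O} : Pos A ↔ ∀ m, ∃ i, cov A i (BB i ^ m) := Iff.rfl

theorem finite_lev (L : ℕ) : {w : O | lev w ≤ L}.Finite := by
  refine Finite.of_finite_image (f := Subtype.val) (Finite.subset
    ((Finset.range (L + 1)).biUnion fun i => {i} ×ˢ (Finset.range (bb i)).powerset).finite_toSet
    ?_) Subtype.val_injective.injOn
  rintro _ ⟨w, hw, rfl⟩
  simp only [Finset.coe_biUnion, mem_iUnion, Finset.mem_coe, Finset.mem_product,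
    Finset.mem_singleton, Finset.mem_powerset, Finset.mem_range]
  exact ⟨w.1.1, Nat.lt_succ_of_le hw, rfl, w.2.1⟩

theorem pos_high {A : Set O} (h : Pos A) (L : ℕ) : Pos {w | w ∈ A ∧ L < lev w} := by
  intro m
  obtain ⟨i, hi⟩ := h (max m ((Finset.range (L + 1)).sup hh))
  have hB := two_le_BB i
  refine ⟨i, hi.mono (Nat.pow_le_pow_right (by omega) (le_max_left _ _)) fun w hw hl => ⟨hw, ?_⟩⟩
  by_contra hL
  have h1 : hh i ≤ (Finset.range (L + 1)).sup hh :=
    Finset.le_sup (f := hh) (Finset.mem_range.2 (by omega))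
  have h2 := hi.le
  have h3 : max m ((Finset.range (L + 1)).sup hh) < BB i ^ max m ((Finset.range (L + 1)).sup hh) :=
    Nat.lt_pow_self (by omega)
  have := le_max_right m ((Finset.range (L + 1)).sup hh)
  omega

theorem pos_catch {A : Set O} (h : Pos A) {y : ℕ → ℕ} (hy : ∀ i, y i < bb i) :
    Pos {w | w ∈ A ∧ y (lev w) ∈ w.1.2} := by
  intro m
  obtain ⟨i, hi⟩ := h (m + 1)
  refine ⟨i, fun F h1 h2 => ?_⟩
  have hB := two_le_BB i
  have h0 : 0 < BB i ^ m := by positivity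
  obtain ⟨w, h3, h4, h5⟩ := hi (insert (y i) F)
    (Finset.insert_subset (Finset.mem_range.2 (hy i)) h1)
    ((Finset.card_insert_le _ _).trans (by rw [pow_succ]; nlinarith))
  exact ⟨w, ⟨h3, h4 ▸ h5 (Finset.mem_insert_self _ _)⟩, h4, (Finset.subset_insert _ _).trans h5⟩

/-- norm with a reserve for the times from `j` on -/
def PN (j : ℕ) (A : Set O) (i m : ℕ) : Prop := cov A i (QQ i ^ ((i + 1) * m + (i + 1 - j)))

theorem pn_of_pos {A : Set O} (h : Pos A) (j m : ℕ) : ∃ i, PN j A i m := by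
  obtain ⟨i, hi⟩ := h (m + 1)
  refine ⟨i, hi.mono ?_ fun _ h _ => h⟩
  rw [BB, ← pow_mul]
  exact Nat.pow_le_pow_right (by have := two_le_QQ i; omega) (by rw [mul_add]; omega)

theorem PN.cov {A : Set O} {j i m : ℕ} (h : PN j A i m) : cov A i (BB i ^ m) := by
  refine cov.mono h ?_ fun _ h _ => h
  rw [BB, ← pow_mul]
  exact Nat.pow_le_pow_right (by have := two_le_QQ i; omega) (by omega)

theorem pos_iInter {A : ℕ → Set O} {κ : ℕ} (hA : ∀ k l, κ ≤ k → k ≤ l → A l ⊆ A k)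
    (h : ∀ m, ∃ i0 j0, ∀ j, j0 ≤ j → ∃ i ≤ i0, cov (A j) i (BB i ^ m)) :
    Pos {w | ∀ k, κ ≤ k → w ∈ A k} := by
  intro m
  obtain ⟨i0, j0, h1⟩ := h m
  have h2 : ∀ w : O, ∃ e, κ ≤ e ∧ (w ∈ A e → ∀ k, κ ≤ k → w ∈ A k) := by
    intro w
    by_cases hw : ∀ k, κ ≤ k → w ∈ A k
    · exact ⟨κ, le_rfl, fun _ => hw⟩
    · push Not at hw
      obtain ⟨k, h3, h4⟩ := hw
      exact ⟨k, h3, fun h5 => absurd h5 h4⟩
  choose e he he' using h2
  obtain ⟨E, hE⟩ := ((finite_lev i0).image e).bddAbove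
  obtain ⟨i, h3, h4⟩ := h1 (max j0 E) (le_max_left _ _)
  refine ⟨i, h4.mono le_rfl fun w hw hl => he' w (hA _ _ (he w) ?_ hw)⟩
  exact (hE ⟨w, by simpa [hl] using h3, rfl⟩).trans (le_max_right _ _)

/-- number of elements of low level -/
noncomputable def NL (L : ℕ) : ℕ := (finite_lev L).toFinset.card

theorem exists_K {V : Type} {A : Set O} (hA : Pos A) (v : O → V) (W : Finset V)
    (hv : ∀ w ∈ A, v w ∈ W) {j hi : ℕ} (hW : W.card ≤ QQ hi) (hj : j + 1 ≤ hi)
    (lo d : ℕ) : ∃ K : Finset V, K ⊆ W ∧ K.card ≤ d + 1 + NL lo ∧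
      Pos {w | w ∈ A ∧ w ∈ {w | (lo < lev w ∧ lev w < hi) ∨ v w ∈ K}} ∧
      ∀ m < d, ∀ i, PN j A i m →
        ∃ i' ≤ i, PN (j + 1) {w | w ∈ A ∧ w ∈ {w | (lo < lev w ∧ lev w < hi) ∨ v w ∈ K}} i' m := by
  classical
  obtain ⟨c0, hc0, hc0'⟩ := pos_colour W v hA hv
  have h1 : ∀ m, ∃ c ∈ W, ∀ i, PN j A i m → ∃ i' ≤ i,
      PN (j + 1) {w | w ∈ A ∧ (lev w < hi ∨ v w = c)} i' m := by
    intro m
    have hex := pn_of_pos hA j m
    have hi0 := Nat.find_spec hex
    set i0 := Nat.find hex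
    have hQ := two_le_QQ i0
    by_cases h : i0 < hi
    · refine ⟨c0, hc0, fun i h2 => ⟨i0, Nat.find_min' hex h2, cov.mono hi0
        (Nat.pow_le_pow_right (by omega) (by omega)) fun w hw hl => ⟨hw, Or.inl (hl ▸ h)⟩⟩⟩
    · obtain ⟨c, hc, h2⟩ := cov.colour (A := A) (i := i0)
        (n := QQ i0 ^ ((i0 + 1) * m + (i0 + 1 - (j + 1)))) W v hv (cov.mono hi0 (by
          have : (i0 + 1) * m + (i0 + 1 - j) = ((i0 + 1) * m + (i0 + 1 - (j + 1))) + 1 := by omega
          rw [this, pow_succ']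
          exact Nat.mul_le_mul_right _ (hW.trans (QQ_mono (not_lt.1 h)))) fun _ h _ => h)
      exact ⟨c, hc, fun i h3 => ⟨i0, Nat.find_min' hex h3,
        cov.mono h2 le_rfl fun w hw _ => ⟨hw.1, Or.inr hw.2⟩⟩⟩
  choose c hc hc' using h1
  let K : Finset V := (insert c0 ((Finset.range d).image c)) ∪
    ((finite_lev lo).toFinset.filter (· ∈ A)).image v
  refine ⟨K, ?_, ?_, LC.mono ?_ hc0', fun m hm i hi => ?_⟩
  · intro z hz
    simp only [K, Finset.mem_union, Finset.mem_insert, Finset.mem_image, Finset.mem_filter] at hz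
    rcases hz with (rfl | ⟨m, -, rfl⟩) | ⟨w, hw, rfl⟩
    exacts [hc0, hc m, hv w hw.2]
  · refine (Finset.card_union_le _ _).trans (add_le_add ((Finset.card_insert_le _ _).trans ?_)
      (Finset.card_image_le.trans (Finset.card_filter_le _ _)))
    exact Nat.succ_le_succ (Finset.card_image_le.trans (by simp))
  · intro w hw
    exact ⟨hw.1, Or.inr (by simp [K, hw.2])⟩
  · obtain ⟨i', h2, h3⟩ := hc' m i hi
    refine ⟨i', h2, cov.mono h3 le_rfl fun w hw _ => ⟨hw.1, ?_⟩⟩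
    rcases hw.2 with h4 | h4
    · by_cases h5 : lo < lev w
      · exact Or.inl ⟨h5, h4⟩
      · refine Or.inr (Finset.mem_union_right _ (Finset.mem_image.2 ⟨w, ?_, rfl⟩))
        simpa using ⟨not_lt.1 h5, hw.1⟩
    · refine Or.inr (Finset.mem_union_left _ (Finset.mem_insert_of_mem ?_))
      exact Finset.mem_image.2 ⟨m, Finset.mem_range.2 hm, h4.symm⟩

/-- the scales given by a finite sequence -/
def nn (t : List O) : ℕ := (t.map fun w => lev w + 1).sum

theorem nn_cons (w : O) (t : List O) : nn (w :: t) = lev w + 1 + nn t := by simp [nn]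

theorem nn_strictMono (x : ℕ → O) : StrictMono fun j => nn (res x j) :=
  strictMono_nat_of_lt_succ fun j => by simp only [res_succ, nn_cons]; omega

theorem le_nn (x : ℕ → O) (j : ℕ) : j ≤ nn (res x j) := (nn_strictMono x).id_le j

/-- the possible values: small sets of subsets of `range hi` -/
def Wset (hi c : ℕ) : Finset (Finset (Finset ℕ)) :=
  (Finset.range hi).powerset.powerset.filter (·.card ≤ c)

theorem mem_Wset {hi c : ℕ} {v : Finset (Finset ℕ)} :
    v ∈ Wset hi c ↔ v ⊆ (Finset.range hi).powerset ∧ v.card ≤ c := by simp [Wset]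

theorem Wset_nonempty (hi c : ℕ) : (Wset hi c).Nonempty := ⟨∅, by simp [mem_Wset]⟩

theorem card_Wset (hi c : ℕ) : (Wset hi c).card ≤ QQ hi :=
  (Finset.card_filter_le _ _).trans (by simp [QQ_eq])

/-- nodes close to the stem with low levels -/
def Rn (d lo : ℕ) (s t : List O) : Prop := ∃ u, t = u ++ s ∧ u.length < d ∧ ∀ w ∈ u, lev w ≤ lo

theorem Rn.suffix {d lo : ℕ} {s t u : List O} (h : Rn d lo s t) (h1 : u <:+ t) (h2 : s <:+ u) :
    Rn d lo s u := by
  obtain ⟨x, rfl, h3, h4⟩ := h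
  obtain ⟨y, rfl⟩ := h2
  obtain ⟨z, hz⟩ := h1
  rw [← List.append_assoc, List.append_cancel_right_eq] at hz
  subst hz
  exact ⟨y, rfl, by simp at h3; omega, fun w hw => h4 w (by simp [hw])⟩

theorem Rn.stem {d lo : ℕ} {s t : List O} (h : Rn d lo s t) : s <:+ t := by
  obtain ⟨x, rfl, -⟩ := h
  exact List.suffix_append _ _

theorem Rn.len {d lo : ℕ} {s t : List O} (h : Rn d lo s t) : t.length < s.length + d := by
  obtain ⟨x, rfl, h1, -⟩ := h
  simp
  omega

theorem finite_R (d lo : ℕ) : {u : List O | u.length < d ∧ ∀ w ∈ u, lev w ≤ lo}.Finite := by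
  have := (finite_lev lo).to_subtype
  refine ((List.finite_length_lt {w : O | lev w ≤ lo} d).image (List.map Subtype.val)).subset ?_
  rintro u ⟨h1, h2⟩
  exact ⟨u.pmap Subtype.mk h2, by
    show List.length _ < d
    rw [List.length_pmap]
    exact h1, by simp [List.map_pmap]⟩

end Pool.Agent.H589Z.CS
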