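import Pool.Agent.H589Z.CS.Spec

/-!
# One step of the capturing fusion
-/

set_option autoImplicit false
set_option linter.unusedSectionVars false

namespace Pool.Agent.H589Z.CS

open Set PiNat MeasureTheory

variable {I : Type} [LinearOrder I] [WellFoundedLT I] [Nonempty I]

/-- Same stem and the same successor sets below the level `n`. -/
def KeepAbs (n : ℕ) (T' T : Tr O) : Prop :=
  T'.stem = T.stem ∧ ∀ t, t.length < n → T'.succ t = T.succ t

theorem Tr.Keep.abs {n m : ℕ} {T' T : Tr O} (h : Tr.Keep n T' T) (hm : m ≤ n) : KeepAbs m T' T :=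
  ⟨h.1, fun t ht => h.2 t (by omega)⟩

theorem KeepAbs.trans {n : ℕ} {T'' T' T : Tr O} (h : KeepAbs n T'' T') (h' : KeepAbs n T' T) :
    KeepAbs n T'' T := ⟨h.1.trans h'.1, fun t ht => (h.2 t ht).trans (h'.2 t ht)⟩

theorem KeepAbs.mono {n m : ℕ} {T' T : Tr O} (h : KeepAbs n T' T) (hm : m ≤ n) : KeepAbs m T' T :=
  ⟨h.1, fun t ht => h.2 t (by omega)⟩

/-- Same stem, and the norms with reserve are kept at the nodes close to the stem. -/
def Sq (j d lo : ℕ) (T' T : Tr O) : Prop :=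
  T'.stem = T.stem ∧ ∀ t, Rn d lo T.stem t → T.Node t → ∀ m < d, ∀ i, PN j (T.succ t) i m →
    ∃ i' ≤ i, PN (j + 1) (T'.succ t) i' m

theorem Sq.keep {j d lo n : ℕ} {T'' T' T : Tr O} (h : Sq j d lo T'' T') (h' : Tr.Keep n T' T)
    (hn : d ≤ n) : Sq j d lo T'' T := by
  refine ⟨h.1.trans h'.1, fun t h1 h2 m hm i hi => ?_⟩
  have h3 := h1.len
  refine h.2 t (h'.1 ▸ h1) ⟨h'.1 ▸ h2.1, fun w u h4 h5 => ?_⟩ m hm i ?_
  · have := h4.length_le
    rw [h'.2 u (by simp at this; omega)]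
    exact h2.2 w u h4 (h'.1 ▸ h5)
  · rw [h'.2 t (by omega)]
    exact hi

/-- The sequence `x` has an entry close to the stem with level in the gap. -/
def Destroy (d s lo hi : ℕ) (x : ℕ → O) : Prop :=
  ∃ m, s ≤ m ∧ m < s + d ∧ lo < lev (x m) ∧ lev (x m) < hi

theorem Tr.shrink_succ_eq {T : Tr O} {s : List O} {A : List O → Set O} {t : List O}
    (h : Pos {w | w ∈ T.succ t ∧ w ∈ A t}) :
    (T.shrink s A).succ t = {w | w ∈ T.succ t ∧ w ∈ A t} := by
  simp only [Tr.shrink, h, if_true]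

theorem ms_PN {a : Set I} {A : Z I O → Set O} (h : ∀ w, MS a fun g => w ∈ A g) (j i m : ℕ) :
    MS a fun g => PN j (A g) i m := ms_cov h _ _

theorem step_hi {β : I} (j : ℕ) {d : ℕ} (hd : 0 < d) (p : Cond I O) {b : Set I}
    (hb : IsLowerSet b) (hβ : β ∈ b) {F : Finset I} (hF : ↑F ⊆ Iio β) (n : ℕ)
    {a : Z I O → Finset (Finset ℕ)} (ha : MF b a) {lo hi : Z I O → ℕ} (hlo : MF (Iio β) lo)
    (hhi : MF (Iio β) hi) (hj : ∀ g, j + 1 ≤ hi g) (c : ℕ → ℕ)
    (haW : ∀ g ∈ body p, a g ∈ Wset (hi g) (c (lo g))) :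
    ∃ (p' : Cond I O) (a' : Z I O → Finset (Finset ℕ)) (c' : ℕ → ℕ), p' ≤ p ∧
      (∀ γ ∉ b, p'.tr γ = p.tr γ) ∧ KeepOn F n p' p ∧
      (∀ g ∈ part (Iio β) p', Sq j d (lo g) (p'.tr β g) (p.tr β g)) ∧ MF (Iio β) a' ∧
      (∀ g, a' g ∈ Wset (hi g) (c' (lo g))) ∧
      ∀ g ∈ body p', a g ⊆ a' g ∨ Destroy d (p.tr β g).stem.length (lo g) (hi g) (g β) := by
  classical
  have hϑ : MF (Iio β) fun g => (hi g, c (lo g)) :=
    hhi.comp (φ := fun x g => (x, c (lo g))) fun x => hlo.map fun y => (x, c y)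
  obtain ⟨r, q, v, hr, hk, hv, hq⟩ := pure_decision β p hF n (ha.mono (subset_univ _))
    (fun θ : ℕ × ℕ => Wset θ.1 θ.2) (fun _ => Wset_nonempty _ _) (ϑ := fun _ g => (hi g, c (lo g)))
    (fun _ => hϑ)
  let A : List O → Finset (Finset (Finset ℕ)) → Z I O → Set O := fun t K g =>
    {w | (lo g < lev w ∧ lev w < hi g) ∨ v (w :: t) g ∈ K}
  have hA : ∀ t K w, MS (Iio β) fun g => w ∈ A t K g := fun t K w =>
    ((hlo.pred (· < lev w)).and (hhi.pred (lev w < ·))).or ((hv _).pred (· ∈ K))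
  have hA' : ∀ t K w, MS (Iio β) fun g => w ∈ {w | w ∈ (p.tr β g).succ t ∧ w ∈ A t K g} :=
    fun t K w => ((p.meas β).2 t w).and (hA t K w)
  let ψ : List O → Finset (Finset (Finset ℕ)) → Z I O → Prop := fun t K g =>
    K ⊆ Wset (hi g) (c (lo g)) ∧ K.card ≤ d + 1 + NL (lo g) ∧
      (g ∈ part (Iio β) r → (p.tr β g).Node t →
        Pos {w | w ∈ (p.tr β g).succ t ∧ w ∈ A t K g} ∧
        ∀ m < d, ∀ i, PN j ((p.tr β g).succ t) i m →
          ∃ i' ≤ i, PN (j + 1) {w | w ∈ (p.tr β g).succ t ∧ w ∈ A t K g} i' m)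
  have hψ : ∀ t K, MS (Iio β) (ψ t K) := fun t K =>
    (hϑ.pred fun θ => K ⊆ Wset θ.1 θ.2).and ((hlo.pred fun l => K.card ≤ d + 1 + NL l).and
      ((ms_low (isLowerSet_Iio β) r).imp (((p.meas β).node t).imp ((MS.pos (hA' t K)).and
        (MS.all fun m => (MS.const _).imp (MS.all fun i => (ms_PN ((p.meas β).2 t) j i m).imp
          (MS.ex fun i' => (MS.const _).and (ms_PN (hA' t K) _ i' m))))))))
  choose K hK hK' using fun t => exists_sel (hψ t)
  have hK'' : ∀ t g, ψ t (K t g) g := fun t g => hK' t g (by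
    by_cases h : g ∈ part (Iio β) r ∧ (p.tr β g).Node t
    · obtain ⟨K, h1, h2, h3⟩ := exists_K ((p.tr β g).pos t) (fun w => v (w :: t) g)
        (Wset (hi g) (c (lo g))) (fun w hw => (hq _ g h.1 (h.2.cons hw)).2.1) (card_Wset _ _)
        (hj g) (lo g) d
      exact ⟨K, h1, h2, fun _ _ => h3⟩
    · exact ⟨∅, by simp, by simp, fun h1 h2 => absurd ⟨h1, h2⟩ h⟩)
  let T : Z I O → Tr O := fun g => (p.tr β g).shrink (p.tr β g).stem fun t => A t (K t g) g
  have hT : MT (Iio β) T := (p.meas β).shrink (p.meas β).1 fun t w =>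
    MS.comp (hK t) (φ := fun K g => w ∈ A t K g) fun K => hA t K w
  let X : Z I O → List O → Prop := fun g u => ∃ w t, u = w :: t ∧
    Rn d (lo g) (p.tr β g).stem t ∧ ¬ Rn d (lo g) (p.tr β g).stem u
  have hX : ∀ u, MS (Iio β) fun g => X g u := fun u =>
    MS.comp hlo (φ := fun l g => ∃ w t, u = w :: t ∧
      Rn d l (p.tr β g).stem t ∧ ¬ Rn d l (p.tr β g).stem u) fun l =>
        (p.meas β).1.pred fun s => ∃ w t, u = w :: t ∧ Rn d l s t ∧ ¬ Rn d l s u
  have hXR : ∀ g u t, u <:+ t → Rn d (lo g) (p.tr β g).stem t → ¬ X g u := by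
    rintro g _ t h1 h2 ⟨w, t', rfl, h3, h4⟩
    exact h4 (h2.suffix h1 (h3.stem.trans (List.suffix_cons _ _)))
  obtain ⟨s, hs0, hs1, hs2, -, hs3⟩ := exists_amalgam β r p hT hX (by
    rintro g u _ h1 h2 ⟨w, t, rfl, h3, -⟩
    rcases List.suffix_cons_iff.1 h1 with h | h
    · exact h
    · exact absurd h2 (hXR g u t h h3)) q
  let a' : Z I O → Finset (Finset ℕ) := fun g => (finite_R d (lo g)).toFinset.biUnion fun u =>
    (K (u ++ (p.tr β g).stem) g).biUnion id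
  have ha' : MF (Iio β) a' := hlo.comp (φ := fun l g => (finite_R d l).toFinset.biUnion fun u =>
      (K (u ++ (p.tr β g).stem) g).biUnion id) fun l =>
    (p.meas β).1.comp (φ := fun s g => (finite_R d l).toFinset.biUnion fun u =>
      (K (u ++ s) g).biUnion id) fun s => MF.finset fun z =>
        (MS.ex fun u => (MS.const (u ∈ (finite_R d l).toFinset)).and
          ((hK (u ++ s)).pred fun K => z ∈ K.biUnion id)).congr fun g => by
            rw [Finset.mem_biUnion]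
  have hlow : part (Iio β) s = part (Iio β) r := part_congr hs0
  have key : ∀ g ∈ body s, g ∈ body p ∧
      (a g ⊆ a' g ∨ Destroy d (p.tr β g).stem.length (lo g) (hi g) (g β)) := by
    intro g hg
    obtain ⟨h1, h2⟩ := (mem_body_Iio β).1 hg
    rw [hlow] at h1
    have h3 : res (g β) (p.tr β g).stem.length = (p.tr β g).stem := by
      have := (hg β trivial).1
      rwa [hs1] at this
    obtain ⟨m, hm, h4, h5⟩ : ∃ m, (p.tr β g).stem.length ≤ m ∧
        Rn d (lo g) (p.tr β g).stem (res (g β) m) ∧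
        ¬ Rn d (lo g) (p.tr β g).stem (res (g β) (m + 1)) := by
      by_contra hc
      push Not at hc
      have : ∀ m, (p.tr β g).stem.length ≤ m → Rn d (lo g) (p.tr β g).stem (res (g β) m) := by
        intro m hm
        induction hm with
        | refl => exact ⟨[], by simp [h3], hd, by simp⟩
        | step hm ih => exact hc _ hm ih
      have := (this _ (Nat.le_add_right _ d)).len
      simp at this
    obtain ⟨h6, h7⟩ := hs3 g h2 (m + 1) ⟨_, _, rfl, h4, h5⟩ (Nat.le_succ_of_le hm)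
    have h8 : (p.tr β g).Node (res (g β) (m + 1)) :=
      h6.mono (Tr.shrink_br (Tr.node_stem _) _) (by simpa using Nat.le_succ_of_le hm)
    obtain ⟨h9, -, h10⟩ := hq _ g h1 h8
    obtain ⟨h11, h12⟩ := h10 (h7 h9)
    have hgp : g ∈ body p := (mem_body_Iio β).2 ⟨hr h1, h11⟩
    refine ⟨hgp, ?_⟩
    have h13 := Tr.mem_of_shrink (h6.succ_mem hm (Nat.lt_succ_self m))
      ((hK'' _ g).2.2 h1 (Tr.node_of_br (hgp β trivial) hm)).1
    rcases h13 with h13 | h13
    · exact Or.inr ⟨m, hm, by simpa using h4.len, h13⟩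
    · left
      rw [h12 (haW g hgp)]
      obtain ⟨u, h14, h15⟩ := h4
      intro z hz
      refine Finset.mem_biUnion.2 ⟨u, by simpa using h15, Finset.mem_biUnion.2 ⟨_, ?_, hz⟩⟩
      rw [← h14]
      exact h13
  have hsp : s ≤ p := fun g hg => (key g hg).1
  have hIio : Iio β ⊆ b := lower_Iio hb hβ
  refine ⟨glue b s p, a', fun l => (finite_R d l).toFinset.card * ((d + 1 + NL l) * c l),
    glue_le (low_mono hb hsp), fun γ hγ => glue_out _ _ hγ,
    KeepOn.of_eq hF (fun γ hγ => (glue_in _ _ (hIio hγ)).trans (hs0 γ hγ)) hk, fun g hg => ?_, ha',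
    fun g => mem_Wset.2 ⟨?_, ?_⟩, fun g hg => ?_⟩
  · rw [part_glue_in _ _ hIio, hlow] at hg
    rw [glue_in _ _ hβ]
    refine ⟨hs1 g, fun t h1 h2 m hm i hi => ?_⟩
    obtain ⟨h3, h4⟩ := (hK'' t g).2.2 hg h2
    rw [hs2 g t fun u hu => hXR g u t hu h1, Tr.shrink_succ_eq h3]
    exact h4 m hm i hi
  · refine Finset.biUnion_subset.2 fun u _ => Finset.biUnion_subset.2 fun z hz => ?_
    exact (mem_Wset.1 ((hK'' _ g).1 hz)).1
  · refine Finset.card_biUnion_le_card_mul _ _ _ fun u _ => ?_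
    refine (Finset.card_biUnion_le_card_mul _ _ (c (lo g)) fun z hz => ?_).trans
      (Nat.mul_le_mul_right _ (hK'' _ g).2.1)
    exact (mem_Wset.1 ((hK'' _ g).1 hz)).2
  · obtain ⟨g', h1, h2⟩ := exists_ext hb (mem_body_glue.1 hg).1
    have h3 := h2.mono hIio
    rw [ha.inv h2, ha'.inv h3, p.tr_eq h3, hlo.inv h3, hhi.inv h3, h2 β hβ]
    exact (key g' h1).2

theorem step_alpha {α : I} (j : ℕ) (p : Cond I O) {b : Set I}
    (hb : IsLowerSet b) (hα : α ∈ b) {F : Finset I} (hF : ↑F ⊆ Iio α) (n : ℕ)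
    {a : Z I O → Finset (Finset ℕ)} (ha : MF b a) (c : ℕ → ℕ)
    (haW : ∀ g ∈ body p, a g ∈ Wset (nn (res (g α) (j + 1))) (c (nn (res (g α) j)))) :
    ∃ (p' : Cond I O) (h : List O → Z I O → Finset (Finset ℕ)), p' ≤ p ∧
      (∀ γ ∉ b, p'.tr γ = p.tr γ) ∧ KeepOn F n p' p ∧
      (∀ g, KeepAbs (j + 1) (p'.tr α g) (p.tr α g)) ∧ (∀ u, MF (Iio α) (h u)) ∧
      (∀ w t g, (h (w :: t) g).card ≤ c (nn t)) ∧
      ∀ g ∈ body p', (p.tr α g).stem.length ≤ j + 1 → a g ⊆ h (res (g α) (j + 1)) g := by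
  classical
  obtain ⟨r, q, v, hr, hk, hv, hq⟩ := pure_decision α p hF n (ha.mono (subset_univ _))
    (fun θ : ℕ × ℕ => Wset θ.1 θ.2) (fun _ => Wset_nonempty _ _)
    (ϑ := fun u _ => (nn u, c (nn u.tail))) (fun _ => MF.const _)
  obtain ⟨s, hs0, hs1, hs2, hs4, hs3⟩ := exists_amalgam α r p (p.meas α)
    (X := fun g u => u.length = j + 1 ∧ (p.tr α g).stem.length ≤ j + 1)
    (fun u => (p.meas α).1.pred fun s => u.length = j + 1 ∧ s.length ≤ j + 1)
    (fun _ u u' h5 h6 h7 => h5.eq_of_length (h6.1.trans h7.1.symm)) q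
  let h : List O → Z I O → Finset (Finset ℕ) := fun u g =>
    if (v u g).card ≤ c (nn u.tail) then v u g else ∅
  have hh : ∀ u, MF (Iio α) (h u) := fun u =>
    (hv u).map fun z => if z.card ≤ c (nn u.tail) then z else ∅
  have hlow : part (Iio α) s = part (Iio α) r := part_congr hs0
  have key : ∀ g ∈ body s, g ∈ body p ∧
      ((p.tr α g).stem.length ≤ j + 1 → a g ⊆ h (res (g α) (j + 1)) g) := by
    intro g hg
    obtain ⟨h1, h2⟩ := (mem_body_Iio α).1 hg
    rw [hlow] at h1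
    by_cases hl : (p.tr α g).stem.length ≤ j + 1
    · obtain ⟨h6, h7⟩ := hs3 g h2 (j + 1) ⟨by simp, hl⟩ hl
      obtain ⟨h9, h8, h10⟩ := hq _ g h1 h6
      obtain ⟨h11, h12⟩ := h10 (h7 h9)
      have hgp : g ∈ body p := (mem_body_Iio α).2 ⟨hr h1, h11⟩
      refine ⟨hgp, fun _ => ?_⟩
      rw [h12 (haW g hgp)]
      simp only [h, (mem_Wset.1 h8).2, if_true]
      exact Finset.Subset.refl _
    · exact ⟨(mem_body_three α).2 ⟨hr h1, hs4 g h2 fun m hm => hl hm.2⟩, fun h => absurd h hl⟩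
  have hsp : s ≤ p := fun g hg => (key g hg).1
  have hIio : Iio α ⊆ b := lower_Iio hb hα
  refine ⟨glue b s p, h, glue_le (low_mono hb hsp), fun γ hγ => glue_out _ _ hγ,
    KeepOn.of_eq hF (fun γ hγ => (glue_in _ _ (hIio hγ)).trans (hs0 γ hγ)) hk, fun g => ?_, hh,
    fun w t g => ?_, fun g hg => ?_⟩
  · rw [glue_in _ _ hα]
    refine ⟨hs1 g, fun t ht => hs2 g t fun u hu h1 => ?_⟩
    have := hu.length_le
    omega
  · simp only [h, List.tail_cons]
    split_ifs with h1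
    · exact h1
    · simp
  · obtain ⟨g', h1, h2⟩ := exists_ext hb (mem_body_glue.1 hg).1
    have h3 := h2.mono hIio
    rw [ha.inv h2, (hh _).inv h3, p.tr_eq h3, h2 α hα]
    exact (key g' h1).2

theorem KeepOn.trans {F : Finset I} {n : ℕ} {s r p : Cond I O} (h : KeepOn F n s r)
    (h' : KeepOn F n r p) (hsr : s ≤ r) : KeepOn F n s p :=
  fun γ hγ g hg => (h γ hγ g hg).trans (h' γ hγ g (low_mono (isLowerSet_Iio γ) hsr hg))

theorem steps {α : I} (j d : ℕ) {Flo : Finset I} (hFlo : ↑Flo ⊆ Iio α) (Fhi : Finset I) :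
    (∀ β ∈ Fhi, α < β) → (Fhi.Nonempty → 0 < d) → ∀ (p : Cond I O) (b : Set I)
    (a : Z I O → Finset (Finset ℕ)) (c : ℕ → ℕ), IsLowerSet b → α ∈ b → ↑Fhi ⊆ b → MF b a →
    (∀ g ∈ body p, a g ∈ Wset (nn (res (g α) (j + 1))) (c (nn (res (g α) j)))) →
    ∃ (p' : Cond I O) (h : List O → Z I O → Finset (Finset ℕ)) (c' : ℕ → ℕ), p' ≤ p ∧
      (∀ γ ∉ b, p'.tr γ = p.tr γ) ∧ KeepOn Flo (j + 1) p' p ∧
      (∀ g ∈ part (Iio α) p', KeepAbs (j + 1) (p'.tr α g) (p.tr α g)) ∧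
      (∀ β ∈ Fhi, ∀ g ∈ part (Iio β) p',
        Sq j d (nn (res (g α) j)) (p'.tr β g) (p.tr β g)) ∧ (∀ u, MF (Iio α) (h u)) ∧
      (∀ w t g, (h (w :: t) g).card ≤ c' (nn t)) ∧
      ∀ g ∈ body p', (p.tr α g).stem.length ≤ j + 1 → a g ⊆ h (res (g α) (j + 1)) g ∨
        ∃ β ∈ Fhi, Destroy d (p.tr β g).stem.length (nn (res (g α) j))
          (nn (res (g α) (j + 1))) (g β) := by
  classical
  induction Fhi using Finset.induction_on_max with
  | empty =>
    intro _ _ p b a c hb hα _ ha haW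
    obtain ⟨p', h, h1, h2, h3, h4, h5, h6, h7⟩ := step_alpha j p hb hα hFlo (j + 1) ha c haW
    exact ⟨p', h, c, h1, h2, h3, fun g _ => h4 g, by simp, h5, h6,
      fun g hg hl => Or.inl (h7 g hg hl)⟩
  | insert β F hβ ih =>
    intro hαF hd p b a c hb hα hFb ha haW
    have hαβ : α < β := hαF β (Finset.mem_insert_self _ _)
    have hβb : β ∈ b := hFb (Finset.mem_insert_self _ _)
    have hd' : 0 < d := hd (Finset.insert_nonempty _ _)
    obtain ⟨p1, a1, c1, h1, h2, h3, h4, h5, h6, h7⟩ := step_hi j hd' p hb hβb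
      (F := F ∪ insert α Flo) (by
        intro γ hγ
        simp only [Finset.coe_union, Finset.coe_insert, mem_union, mem_insert_iff,
          Finset.mem_coe] at hγ
        rcases hγ with h | rfl | h
        exacts [hβ γ h, hαβ, lt_trans (hFlo h) hαβ]) (max (j + 1) d) ha
      (lo := fun g => nn (res (g α) j)) (hi := fun g => nn (res (g α) (j + 1)))
      ((MF.res (mem_Iio.2 hαβ) j).map nn) ((MF.res (mem_Iio.2 hαβ) (j + 1)).map nn)
      (fun g => le_nn _ _) c haW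
    obtain ⟨p2, h, c2, k1, k2, k3, k4, k5, k6, k7, k8⟩ := ih
      (fun γ hγ => hαF γ (Finset.mem_insert_of_mem hγ)) (fun _ => hd') p1 (Iio β) a1 c1
      (isLowerSet_Iio β) hαβ (fun γ hγ => hβ γ hγ) h5 (fun g _ => h6 g)
    have hlm : ∀ γ, part (Iio γ) p2 ⊆ part (Iio γ) p1 := fun γ => low_mono (isLowerSet_Iio γ) k1
    have hα1 : ∀ g ∈ part (Iio α) p1, Tr.Keep (max (j + 1) d) (p1.tr α g) (p.tr α g) :=
      h3 α (by simp)
    refine ⟨p2, h, c2, k1.trans h1, fun γ hγ => ?_, fun γ hγ g hg => ?_, fun g hg => ?_,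
      fun γ hγ g hg => ?_, k6, k7, fun g hg hl => ?_⟩
    · rw [k2 γ fun h => hγ (lower_Iio hb hβb h), h2 γ hγ]
    · exact (k3 γ hγ g hg).trans ((h3 γ (by simp [hγ]) g (hlm γ hg)).mono (le_max_left _ _))
    · exact (k4 g hg).trans ((hα1 g (hlm α hg)).abs (le_max_left _ _))
    · rcases Finset.mem_insert.1 hγ with rfl | hγ
      · rw [k2 γ (lt_irrefl γ)]
        exact h4 g (hlm γ hg)
      · exact (k5 γ hγ g hg).keep (h3 γ (by simp [hγ]) g (hlm γ hg)) (le_max_right _ _)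
    · have hg1 := k1 hg
      rcases h7 g hg1 with h8 | h8
      · rcases k8 g hg (by rw [(hα1 g (body_subset _ _ hg1)).1]; exact hl) with h9 | ⟨γ, hγ, h9⟩
        · exact Or.inl (h8.trans h9)
        · refine Or.inr ⟨γ, Finset.mem_insert_of_mem hγ, ?_⟩
          rwa [(h3 γ (by simp [hγ]) g (body_subset _ _ hg1)).1] at h9
      · exact Or.inr ⟨β, Finset.mem_insert_self _ _, h8⟩

end Pool.Agent.H589Z.CS
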