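import Mathlib

/-!
# Laver type trees with respect to a coideal
-/

set_option autoImplicit false
set_option linter.unusedSectionVars false

namespace Pool.Agent.H589Z.CS

open Set PiNat MeasureTheory

/-- A Borel coideal on a set `Om`. -/
class LC (Om : Type) where
  Pos : Set Om → Prop
  univ : Pos Set.univ
  mono : ∀ {A B : Set Om}, A ⊆ B → Pos A → Pos B
  union : ∀ {A B : Set Om}, Pos (A ∪ B) → Pos A ∨ Pos B
  ne : ∀ {A : Set Om}, Pos A → A.Nonempty
  meas : ∀ {Z : Type} (m : MeasurableSpace Z) (A : Z → Set Om),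
    (∀ w, MeasurableSet[m] {z | w ∈ A z}) → MeasurableSet[m] {z | Pos (A z)}

export LC (Pos)

variable {Om : Type} [LC Om]

theorem pos_biUnion {V : Type} (W : Finset V) (A : V → Set Om) (h : Pos (⋃ v ∈ W, A v)) :
    ∃ v ∈ W, Pos (A v) := by
  classical
  induction W using Finset.induction_on with
  | empty => obtain ⟨w, hw⟩ := LC.ne h; simp at hw
  | insert a s _ ih =>
    rw [Finset.set_biUnion_insert] at h
    rcases LC.union h with h | h
    · exact ⟨a, Finset.mem_insert_self _ _, h⟩
    · obtain ⟨v, hv, h'⟩ := ih h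
      exact ⟨v, Finset.mem_insert_of_mem hv, h'⟩

theorem pos_colour {V : Type} (W : Finset V) {A : Set Om} (v : Om → V) (h : Pos A)
    (hv : ∀ w ∈ A, v w ∈ W) : ∃ c ∈ W, Pos {w | w ∈ A ∧ v w = c} := by
  apply pos_biUnion
  refine LC.mono ?_ h
  intro w hw
  simp only [mem_iUnion]
  exact ⟨v w, hv w hw, hw, rfl⟩

theorem pos_diff {A B : Set Om} (h : Pos A) (h' : ¬ Pos {w | w ∈ A ∧ w ∈ B}) :
    Pos {w | w ∈ A ∧ w ∉ B} := by
  have : A = {w | w ∈ A ∧ w ∈ B} ∪ {w | w ∈ A ∧ w ∉ B} := by
    ext w; simp only [mem_union, mem_ofPred_eq]; tauto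
  rw [this] at h
  exact (LC.union h).resolve_left h'

theorem res_suffix {α : Type} (x : ℕ → α) {m n : ℕ} (h : m ≤ n) : res x m <:+ res x n := by
  induction h with
  | refl => exact List.suffix_refl _
  | step _ ih => exact ih.trans (List.suffix_cons _ _)

theorem eq_res_of_suffix {α : Type} {x : ℕ → α} {u : List α} {n : ℕ} (h : u <:+ res x n) :
    res x u.length = u := by
  have hl : u.length ≤ n := by simpa using h.length_le
  have h2 := res_suffix x hl
  rcases List.suffix_or_suffix_of_suffix h h2 with h3 | h3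
  · exact (h3.eq_of_length (by simp)).symm
  · exact h3.eq_of_length (by simp)

theorem res_eq_of_le {α : Type} {x y : ℕ → α} {m n : ℕ} (h : res x n = res y n) (hm : m ≤ n) :
    res x m = res y m :=
  res_eq_res.2 fun _ hk => res_eq_res.1 h (lt_of_lt_of_le hk hm)

/-- A Laver type tree: a stem (newest entry first) and positive successor sets. -/
@[ext]
structure Tr (Om : Type) [LC Om] where
  stem : List Om
  succ : List Om → Set Om
  pos : ∀ t, Pos (succ t)

namespace Tr

/-- The branches. -/
def br (T : Tr Om) : Set (ℕ → Om) :=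
  {x | res x T.stem.length = T.stem ∧ ∀ n, T.stem.length ≤ n → x n ∈ T.succ (res x n)}

/-- The nodes above the stem. -/
def Node (T : Tr Om) (t : List Om) : Prop :=
  T.stem <:+ t ∧ ∀ w u, w :: u <:+ t → T.stem.length ≤ u.length → w ∈ T.succ u

/-- The full tree. -/
def top : Tr Om := ⟨[], fun _ => univ, fun _ => LC.univ⟩

/-- The cone above a node. -/
def cone (T : Tr Om) (t : List Om) : Tr Om := ⟨t, T.succ, T.pos⟩

theorem mem_br_top (x : ℕ → Om) : x ∈ (top : Tr Om).br := ⟨rfl, fun _ _ => mem_univ _⟩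

theorem Node.len {T : Tr Om} {t : List Om} (h : T.Node t) : T.stem.length ≤ t.length :=
  h.1.length_le

theorem node_stem (T : Tr Om) : T.Node T.stem := by
  refine ⟨List.suffix_refl _, fun w u h h' => ?_⟩
  have := h.length_le
  simp at this
  omega

theorem Node.cons {T : Tr Om} {t : List Om} (h : T.Node t) {w : Om} (hw : w ∈ T.succ t) :
    T.Node (w :: t) := by
  refine ⟨h.1.trans (List.suffix_cons _ _), fun w' u h1 h2 => ?_⟩
  rcases List.suffix_cons_iff.1 h1 with h3 | h3
  · obtain ⟨rfl, rfl⟩ := List.cons.inj h3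
    exact hw
  · exact h.2 _ _ h3 h2

theorem node_res {T : Tr Om} {x : ℕ → Om} {m : ℕ} (h0 : res x T.stem.length = T.stem)
    (hm : T.stem.length ≤ m) (h : ∀ n, T.stem.length ≤ n → n < m → x n ∈ T.succ (res x n)) :
    T.Node (res x m) := by
  induction hm with
  | refl => rw [h0]; exact T.node_stem
  | @step k hk ih =>
    exact (ih fun n h1 h2 => h n h1 (Nat.lt_succ_of_lt h2)).cons (h k hk (Nat.lt_succ_self _))

theorem node_of_br {T : Tr Om} {x : ℕ → Om} (hx : x ∈ T.br) {m : ℕ} (hm : T.stem.length ≤ m) :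
    T.Node (res x m) := node_res hx.1 hm fun n h _ => hx.2 n h

theorem Node.succ_mem {T : Tr Om} {x : ℕ → Om} {m n : ℕ} (h : T.Node (res x m))
    (h1 : T.stem.length ≤ n) (h2 : n < m) : x n ∈ T.succ (res x n) :=
  h.2 _ _ (res_suffix x (m := n + 1) h2) (by simpa using h1)

theorem Node.res_stem {T : Tr Om} {x : ℕ → Om} {m : ℕ} (h : T.Node (res x m)) :
    res x T.stem.length = T.stem := eq_res_of_suffix h.1

theorem mem_br_of_cone {T : Tr Om} {t : List Om} (h : T.Node t) {x : ℕ → Om}
    (hx : x ∈ (T.cone t).br) : x ∈ T.br := by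
  have h1 : res x t.length = t := hx.1
  rw [← h1] at h
  refine ⟨h.res_stem, fun n hn => ?_⟩
  by_cases h2 : n < t.length
  · exact h.succ_mem hn h2
  · exact hx.2 n (not_lt.1 h2)

theorem br_nonempty (T : Tr Om) : T.br.Nonempty := by
  classical
  choose f hf using fun t => LC.ne (T.pos t)
  let s := T.stem
  let L : ℕ → List Om := fun n => Nat.rec []
    (fun k l => (if h : k < s.length then s.reverse[k]'(by simpa using h) else f l) :: l) n
  let x : ℕ → Om := fun k => if h : k < s.length then s.reverse[k]'(by simpa using h) else f (L k)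
  have hL : ∀ n, res x n = L n := by
    intro n
    induction n with
    | zero => rfl
    | succ k ih => rw [res_succ, ih]
  have hs : ∀ n, n ≤ s.length → res x n = (s.reverse.take n).reverse := by
    intro n
    induction n with
    | zero => simp
    | succ k ih =>
      intro hk
      have hk' : k < s.length := hk
      rw [res_succ, ih hk'.le, List.take_add_one]
      simp [x, hk']
  refine ⟨x, ?_, fun n hn => ?_⟩
  · rw [hs _ le_rfl]
    have : s.length = s.reverse.length := by simp
    rw [this, List.take_length, List.reverse_reverse]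
  · have : ¬ n < s.length := not_lt.2 hn
    simp only [x, this, dite_false, hL]
    exact hf _

theorem Node.exists_br {T : Tr Om} {t : List Om} (h : T.Node t) :
    ∃ x ∈ T.br, res x t.length = t := by
  obtain ⟨x, hx⟩ := (T.cone t).br_nonempty
  exact ⟨x, mem_br_of_cone h hx, hx.1⟩

theorem Node.mono {T T' : Tr Om} {t : List Om} (h : T'.Node t) (hb : T'.br ⊆ T.br)
    (hl : T.stem.length ≤ t.length) : T.Node t := by
  obtain ⟨x, hx, hx'⟩ := h.exists_br
  rw [← hx']
  exact node_of_br (hb hx) hl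

theorem succ_subset {T T' : Tr Om} {t : List Om} (h : T'.Node t) (hb : T'.br ⊆ T.br)
    (hl : T.stem.length ≤ t.length) : T'.succ t ⊆ T.succ t := by
  intro w hw
  have := (h.cons hw).mono hb (by simp; omega)
  exact this.2 _ _ (List.suffix_refl _) hl

theorem mem_br_of_nodes {T : Tr Om} {x : ℕ → Om}
    (h : ∀ m, ∃ m', m ≤ m' ∧ T.Node (res x m')) : x ∈ T.br := by
  obtain ⟨m, _, hm⟩ := h 0
  refine ⟨hm.res_stem, fun n hn => ?_⟩
  obtain ⟨m', h1, h2⟩ := h (n + 1)
  exact h2.succ_mem hn h1

theorem mem_br_of_approx {T : Tr Om} {x : ℕ → Om}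
    (h : ∀ m, ∃ y ∈ T.br, res y m = res x m) : x ∈ T.br := by
  apply mem_br_of_nodes
  intro m
  obtain ⟨y, hy, h1⟩ := h (max m T.stem.length)
  exact ⟨_, le_max_left _ _, h1 ▸ node_of_br hy (le_max_right _ _)⟩

theorem exists_long_node (T : Tr Om) (n : ℕ) : ∃ t, T.Node t ∧ n ≤ t.length := by
  obtain ⟨x, hx⟩ := T.br_nonempty
  exact ⟨res x (max n T.stem.length), node_of_br hx (le_max_right _ _), by simp⟩

open Classical in
/-- Shrink the successor sets to `A t` whenever this is allowed. -/
noncomputable def shrink (T : Tr Om) (s : List Om) (A : List Om → Set Om) : Tr Om :=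
  ⟨s, fun t => if Pos {w | w ∈ T.succ t ∧ w ∈ A t} then {w | w ∈ T.succ t ∧ w ∈ A t} else T.succ t,
    fun t => by
      split_ifs with h
      · exact h
      · exact T.pos t⟩

theorem shrink_succ_subset (T : Tr Om) (s : List Om) (A : List Om → Set Om) (t : List Om) :
    (T.shrink s A).succ t ⊆ T.succ t := by
  intro w hw
  simp only [shrink] at hw
  split_ifs at hw with h
  · exact hw.1
  · exact hw

theorem mem_of_shrink {T : Tr Om} {s : List Om} {A : List Om → Set Om} {t : List Om} {w : Om}
    (hw : w ∈ (T.shrink s A).succ t) (h : Pos {w | w ∈ T.succ t ∧ w ∈ A t}) : w ∈ A t := by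
  simp only [shrink, h, if_true] at hw
  exact hw.2

theorem shrink_br {T : Tr Om} {s : List Om} (hs : T.Node s) (A : List Om → Set Om) :
    (T.shrink s A).br ⊆ T.br := fun _ hx =>
  mem_br_of_cone hs ⟨hx.1, fun n hn => shrink_succ_subset T s A _ (hx.2 n hn)⟩

/-- Same stem and the same first `n` levels above the stem. -/
def Keep (n : ℕ) (T' T : Tr Om) : Prop :=
  T'.stem = T.stem ∧ ∀ t, t.length < T.stem.length + n → T'.succ t = T.succ t

theorem Keep.refl (n : ℕ) (T : Tr Om) : Keep n T T := ⟨rfl, fun _ _ => rfl⟩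

theorem Keep.trans {n : ℕ} {T'' T' T : Tr Om} (h : Keep n T'' T') (h' : Keep n T' T) :
    Keep n T'' T :=
  ⟨h.1.trans h'.1, fun t ht => (h.2 t (by rw [h'.1]; exact ht)).trans (h'.2 t ht)⟩

theorem Keep.mono {n m : ℕ} {T' T : Tr Om} (h : Keep n T' T) (hm : m ≤ n) : Keep m T' T :=
  ⟨h.1, fun t ht => h.2 t (by omega)⟩

end Tr

end Pool.Agent.H589Z.CS
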